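import Mathlib

/-!
# A back-and-forth argument
-/

set_option autoImplicit false

namespace Pool.Agent.Y567.TC

section

variable {Z : List ℕ → List ℕ → Prop}

/-- states -/
structure St (Z : List ℕ → List ℕ → Prop) where
  /-- left -/
  a : List ℕ
  /-- right -/
  b : List ℕ
  z : Z a b
  n : a.Nodup

lemma step (hn : ∀ a b, Z a b → (a.Nodup ↔ b.Nodup))
    (hf : ∀ a b, Z a b → ∀ i, ∃ j, Z (a ++ [i]) (b ++ [j]))
    (hb : ∀ a b, Z a b → ∀ j, ∃ i, Z (a ++ [i]) (b ++ [j])) (s : St Z) (k : ℕ) :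
    ∃ t : St Z, s.a <+: t.a ∧ s.b <+: t.b ∧ k ∈ t.a ∧ k ∈ t.b := by
  obtain ⟨t, ht1, ht2, ht3⟩ : ∃ t : St Z, s.a <+: t.a ∧ s.b <+: t.b ∧ k ∈ t.a := by
    by_cases h : k ∈ s.a
    · exact ⟨s, List.prefix_rfl, List.prefix_rfl, h⟩
    · obtain ⟨j, hj⟩ := hf _ _ s.z k
      exact ⟨⟨s.a ++ [k], s.b ++ [j], hj, by
        rw [List.nodup_append]
        refine ⟨s.n, List.nodup_singleton _, ?_⟩
        intro x hx y hy hxy
        rw [List.mem_singleton] at hy
        rw [hxy, hy] at hx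
        exact h hx⟩, List.prefix_append _ _, List.prefix_append _ _, by simp⟩
  by_cases h : k ∈ t.b
  · exact ⟨t, ht1, ht2, ht3, h⟩
  · obtain ⟨i, hi⟩ := hb _ _ t.z k
    refine ⟨⟨t.a ++ [i], t.b ++ [k], hi, ?_⟩, ht1.trans (List.prefix_append _ _),
      ht2.trans (List.prefix_append _ _), ?_, by simp⟩
    · rw [hn _ _ hi, List.nodup_append]
      refine ⟨(hn _ _ t.z).1 t.n, List.nodup_singleton _, ?_⟩
      intro x hx y hy hxy
      rw [List.mem_singleton] at hy
      rw [hxy, hy] at hx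
      exact h hx
    · simp [ht3]

theorem back_forth (h0 : Z [] []) (hlen : ∀ a b, Z a b → a.length = b.length)
    (hn : ∀ a b, Z a b → (a.Nodup ↔ b.Nodup))
    (hf : ∀ a b, Z a b → ∀ i, ∃ j, Z (a ++ [i]) (b ++ [j]))
    (hb : ∀ a b, Z a b → ∀ j, ∃ i, Z (a ++ [i]) (b ++ [j])) :
    ∃ π : Equiv.Perm ℕ, ∀ N : ℕ, ∃ a, Z a (a.map π) ∧ ∀ i < N, i ∈ a := by
  choose t ht1 ht2 ht3 ht4 using step hn hf hb
  obtain ⟨s, hs⟩ : ∃ s : ℕ → St Z, ∀ n, s (n + 1) = t (s n) n :=
    ⟨fun n => Nat.rec ⟨[], [], h0, List.nodup_nil⟩ (fun n s => t s n) n, fun n => rfl⟩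
  have hpa : ∀ m n, m ≤ n → (s m).a <+: (s n).a := by
    intro m n h
    induction n, h using Nat.le_induction with
    | base => exact List.prefix_rfl
    | succ n _ ih =>
      rw [hs]
      exact ih.trans (ht1 _ _)
  have hpb : ∀ m n, m ≤ n → (s m).b <+: (s n).b := by
    intro m n h
    induction n, h using Nat.le_induction with
    | base => exact List.prefix_rfl
    | succ n _ ih =>
      rw [hs]
      exact ih.trans (ht2 _ _)
  have hma : ∀ k n, k < n → k ∈ (s n).a := by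
    intro k n h
    have h1 : k ∈ (s (k + 1)).a := by rw [hs]; exact ht3 _ _
    exact (hpa (k + 1) n h).subset h1
  have hmb : ∀ k n, k < n → k ∈ (s n).b := by
    intro k n h
    have h1 : k ∈ (s (k + 1)).b := by rw [hs]; exact ht4 _ _
    exact (hpb (k + 1) n h).subset h1
  have hnb : ∀ n, (s n).b.Nodup := fun n => (hn _ _ (s n).z).1 (s n).n
  have hlen' : ∀ n, (s n).a.length = (s n).b.length := fun n => hlen _ _ (s n).z
  -- the relation
  let Γ : ℕ → ℕ → Prop := fun i j => ∃ n k : ℕ, (s n).a[k]? = some i ∧ (s n).b[k]? = some j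
  have hup : ∀ {i j n k m : ℕ}, n ≤ m → (s n).a[k]? = some i → (s n).b[k]? = some j →
      (s m).a[k]? = some i ∧ (s m).b[k]? = some j := by
    intro i j n k m h h1 h2
    exact ⟨List.prefix_iff_getElem?.1 (hpa n m h) k (by
        rw [List.getElem?_eq_some_iff] at h1
        exact h1.1) ▸ (by
        rw [List.getElem?_eq_some_iff] at h1
        obtain ⟨h3, h4⟩ := h1
        rw [h4]), List.prefix_iff_getElem?.1 (hpb n m h) k (by
        rw [List.getElem?_eq_some_iff] at h2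
        exact h2.1) ▸ (by
        rw [List.getElem?_eq_some_iff] at h2
        obtain ⟨h3, h4⟩ := h2
        rw [h4])⟩
  have hfun : ∀ i, ∃ j, Γ i j := by
    intro i
    have h1 := hma i (i + 1) (Nat.lt_succ_self i)
    obtain ⟨k, hk, hk2⟩ := List.getElem_of_mem h1
    have hk' : k < (s (i + 1)).b.length := by rw [← hlen']; exact hk
    exact ⟨(s (i + 1)).b[k], i + 1, k, by rw [List.getElem?_eq_some_iff]; exact ⟨hk, hk2⟩,
      by rw [List.getElem?_eq_some_iff]; exact ⟨hk', rfl⟩⟩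
  have hfun' : ∀ j, ∃ i, Γ i j := by
    intro j
    have h1 := hmb j (j + 1) (Nat.lt_succ_self j)
    obtain ⟨k, hk, hk2⟩ := List.getElem_of_mem h1
    have hk' : k < (s (j + 1)).a.length := by rw [hlen']; exact hk
    exact ⟨(s (j + 1)).a[k], j + 1, k, by rw [List.getElem?_eq_some_iff]; exact ⟨hk', rfl⟩,
      by rw [List.getElem?_eq_some_iff]; exact ⟨hk, hk2⟩⟩
  have hidx : ∀ {l : List ℕ} {k k' x : ℕ}, l.Nodup → l[k]? = some x → l[k']? = some x → k = k' := by
    intro l k k' x hl h1 h2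
    rw [List.getElem?_eq_some_iff] at h1 h2
    obtain ⟨h3, h4⟩ := h1
    obtain ⟨h5, h6⟩ := h2
    exact (hl.getElem_inj_iff).1 (h4.trans h6.symm)
  have huniq : ∀ i j j', Γ i j → Γ i j' → j = j' := by
    rintro i j j' ⟨n, k, h1, h2⟩ ⟨n', k', h1', h2'⟩
    obtain ⟨e1, e2⟩ := hup (le_max_left n n') h1 h2
    obtain ⟨e1', e2'⟩ := hup (le_max_right n n') h1' h2'
    have := hidx (s (max n n')).n e1 e1'
    rw [this, e2'] at e2
    exact (Option.some_injective _ e2).symm
  have huniq' : ∀ i i' j, Γ i j → Γ i' j → i = i' := by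
    rintro i j j' ⟨n, k, h1, h2⟩ ⟨n', k', h1', h2'⟩
    obtain ⟨e1, e2⟩ := hup (le_max_left n n') h1 h2
    obtain ⟨e1', e2'⟩ := hup (le_max_right n n') h1' h2'
    have := hidx (hnb (max n n')) e2 e2'
    rw [this, e1'] at e1
    exact (Option.some_injective _ e1).symm
  choose f hf' using hfun
  choose g hg' using hfun'
  let π : Equiv.Perm ℕ := ⟨f, g, fun i => huniq' _ _ _ (hg' (f i)) (hf' i),
    fun j => huniq _ _ _ (hf' (g j)) (hg' j)⟩
  refine ⟨π, fun N => ⟨(s N).a, ?_, fun i hi => hma i N hi⟩⟩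
  have h1 : (s N).a.map π = (s N).b := by
    apply List.ext_getElem
    · rw [List.length_map, hlen']
    · intro k hk hk'
      rw [List.getElem_map]
      have hk2 : k < (s N).a.length := by rwa [List.length_map] at hk
      refine huniq ((s N).a[k]) _ _ (hf' _) ⟨N, k, ?_, ?_⟩
      · rw [List.getElem?_eq_some_iff]; exact ⟨hk2, rfl⟩
      · rw [List.getElem?_eq_some_iff]; exact ⟨hk', rfl⟩
  rw [h1]
  exact (s N).z

end

end Pool.Agent.Y567.TC
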