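import Mathlib
import Pool.Agent.H812R3.CantorChar

/-!
# A family of homeomorphisms of the Cantor set, indexed by countable structures
-/

set_option autoImplicit false

open Set Filter Topology

namespace Pool.Agent.Y567.TC

/-- structures: countably many relations of all arities -/
abbrev Str : Type := ℕ → List ℕ → Bool

/-- isomorphism of structures -/
def SIso (R R' : Str) : Prop := ∃ π : Equiv.Perm ℕ, ∀ n l, R' n (l.map π) = R n l

/-- the entries of a sequence -/
def gt (l : List ℕ) (i : ℕ) : Option ℕ := l[i]?

/-- the properties of a finite sequence -/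
def U (R : Str) : ℕ → List ℕ → Bool
  | 0, _ => true
  | 1, l => decide l.Nodup
  | (k + 2), l => R (Denumerable.ofNat (ℕ × List ℕ) k).1
      (List.filterMap (gt l) (Denumerable.ofNat (ℕ × List ℕ) k).2)

/-- the sequence of a node -/
def pr (c : List ℕ) : List ℕ := c.map fun x => (Nat.unpair x).1

/-- the bits of a node -/
def bit (R : Str) (q : ℕ) (c : List ℕ) : Bool :=
  decide (c.length = (Nat.unpair q).1) && U R (Nat.unpair q).2 (pr c)

/-- the space of the nodes -/
abbrev F : Type := ℕ → OnePoint ℕ

/-- a node as a point -/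
def nd (c : List ℕ) : F := fun i => (gt c i).elim OnePoint.infty (fun x => (x : OnePoint ℕ))

/-- the isolated symbols -/
structure Ee where
  /-- the node -/
  c : List ℕ
  /-- the number of the cycle -/
  j : ℕ
  /-- the length of the cycle, minus two -/
  q : ℕ
  /-- the place in the cycle -/
  i : ZMod (q + 2)

instance : TopologicalSpace Ee := ⊥

instance : DiscreteTopology Ee := ⟨rfl⟩

/-- rotation -/
def rt (n : ℤ) (e : Ee) : Ee := ⟨e.c, e.j, e.q, e.i + (n : ZMod (e.q + 2))⟩

lemma rt_add (n m : ℤ) (e : Ee) : rt n (rt m e) = rt (n + m) e := by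
  unfold rt
  simp only
  congr 1
  push_cast
  ring

lemma rt_zero (e : Ee) : rt 0 e = e := by
  unfold rt
  simp

/-- the rotation of the cycles -/
def sg (R : Str) (n : ℤ) (e : Ee) : Ee := if bit R e.q e.c = true then rt n e else e

lemma sg_pos {R : Str} {e : Ee} (h : bit R e.q e.c = true) (n : ℤ) : sg R n e = rt n e := if_pos h

lemma sg_neg {R : Str} {e : Ee} (h : ¬ bit R e.q e.c = true) (n : ℤ) : sg R n e = e := if_neg h

lemma sg_c (R : Str) (n : ℤ) (e : Ee) : (sg R n e).c = e.c := by
  unfold sg
  split_ifs <;> rfl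

lemma sg_add (R : Str) (n m : ℤ) (e : Ee) : sg R n (sg R m e) = sg R (n + m) e := by
  by_cases h : bit R e.q e.c = true
  · rw [sg_pos h, sg_pos h, sg_pos (e := rt m e) h, rt_add]
  · rw [sg_neg h, sg_neg h, sg_neg h]

lemma sg_zero (R : Str) (e : Ee) : sg R 0 e = e := by
  by_cases h : bit R e.q e.c = true
  · rw [sg_pos h, rt_zero]
  · rw [sg_neg h]

/-- the symbols -/
def BS : Set (F × OnePoint Ee) := {b | ∀ e : Ee, b.2 = (e : OnePoint Ee) → b.1 = nd e.c}

/-- the alphabet without the hub -/
abbrev B : Type := BS

lemma isClopen_coe {D : Type*} [TopologicalSpace D] [DiscreteTopology D] (e : D) :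
    IsClopen {w : OnePoint D | w = (e : OnePoint D)} := by
  constructor
  · exact isClosed_singleton
  · have h1 : {w : OnePoint D | w = (e : OnePoint D)} = ((↑) : D → OnePoint D) '' {e} := by
      simp
    rw [h1]
    exact OnePoint.isOpenEmbedding_coe.isOpenMap _ (isOpen_discrete _)

instance : CompactSpace B := by
  refine isCompact_iff_compactSpace.1 (IsClosed.isCompact ?_)
  have h1 : BS = ⋂ e : Ee, ({b | b.2 = (e : OnePoint Ee)}ᶜ ∪ {b | b.1 = nd e.c}) := by
    ext b
    rw [mem_iInter]
    exact forall_congr' fun e => imp_iff_not_or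
  rw [h1]
  refine isClosed_iInter fun e => IsClosed.union ?_ ?_
  · exact (((isClopen_coe e).isOpen).preimage continuous_snd).isClosed_compl
  · exact isClosed_eq continuous_fst continuous_const

/-- a map to the one point compactification of a discrete space is continuous if the preimages of
the isolated points are clopen -/
lemma cont_onePoint {X D : Type*} [TopologicalSpace X] [TopologicalSpace D] [DiscreteTopology D]
    {f : X → OnePoint D} (h : ∀ e : D, IsClopen {x | f x = (e : OnePoint D)}) : Continuous f := by
  rw [continuous_def]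
  intro s hs
  by_cases hi : OnePoint.infty ∈ s
  · have h1 := (OnePoint.isOpen_iff_of_mem' hi).1 hs
    have h2 : (((↑) : D → OnePoint D) ⁻¹' s)ᶜ.Finite := isCompact_iff_finite.1 h1.1
    have h3 : f ⁻¹' s = (⋃ e ∈ (((↑) : D → OnePoint D) ⁻¹' s)ᶜ, {x | f x = (e : OnePoint D)})ᶜ := by
      ext x
      simp only [mem_preimage, mem_compl_iff, mem_iUnion, not_exists]
      constructor
      · intro hx e he hxe
        have hxe' : f x = e := hxe
        rw [hxe'] at hx
        exact he hx
      · intro hx
        by_contra hn
        have hne : f x ≠ OnePoint.infty := fun h => hn (h ▸ hi)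
        obtain ⟨e, he⟩ := OnePoint.ne_infty_iff_exists.1 hne
        exact hx e (by rw [he]; exact hn) he.symm
    rw [h3]
    exact (h2.isClosed_biUnion fun e _ => (h e).isClosed).isOpen_compl
  · have h3 : f ⁻¹' s = ⋃ e ∈ (((↑) : D → OnePoint D) ⁻¹' s), {x | f x = (e : OnePoint D)} := by
      ext x
      simp only [mem_preimage, mem_iUnion, exists_prop]
      constructor
      · intro hx
        have hne : f x ≠ OnePoint.infty := fun h => hi (h ▸ hx)
        obtain ⟨e, he⟩ := OnePoint.ne_infty_iff_exists.1 hne
        exact ⟨e, by rw [he]; exact hx, he.symm⟩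
      · rintro ⟨e, he, hx⟩
        have hx' : f x = e := hx
        rw [hx']
        exact he
    rw [h3]
    exact isOpen_biUnion fun e _ => (h e).isOpen

/-! ### The action on the alphabet -/

/-- the action on the alphabet -/
def Sb (R : Str) (n : ℤ) (b : B) : B :=
  ⟨(b.1.1, OnePoint.map (sg R n) b.1.2), by
    intro e he
    have hne : b.1.2 ≠ OnePoint.infty := by
      intro h
      have he' : OnePoint.map (sg R n) b.1.2 = e := he
      rw [h] at he'
      exact OnePoint.infty_ne_coe e he'
    obtain ⟨e', he'⟩ := OnePoint.ne_infty_iff_exists.1 hne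
    have h1 := b.2 e' he'.symm
    have h2 : OnePoint.map (sg R n) b.1.2 = e := he
    rw [← he'] at h2
    have h3 : sg R n e' = e := OnePoint.coe_injective h2
    show b.1.1 = nd e.c
    rw [h1, ← h3, sg_c]⟩

lemma map_map (f g : Ee → Ee) (w : OnePoint Ee) :
    OnePoint.map f (OnePoint.map g w) = OnePoint.map (fun e => f (g e)) w := by
  induction w using OnePoint.rec with
  | infty => rfl
  | coe e => rfl

lemma map_id' (w : OnePoint Ee) : OnePoint.map (fun e => e) w = w := by
  induction w using OnePoint.rec with
  | infty => rfl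
  | coe e => rfl

lemma Sb_add (R : Str) (n m : ℤ) (b : B) : Sb R n (Sb R m b) = Sb R (n + m) b := by
  apply Subtype.ext
  show (b.1.1, OnePoint.map (sg R n) (OnePoint.map (sg R m) b.1.2)) =
    (b.1.1, OnePoint.map (sg R (n + m)) b.1.2)
  rw [map_map]
  congr 2
  funext e
  exact sg_add R n m e

lemma Sb_zero (R : Str) (b : B) : Sb R 0 b = b := by
  apply Subtype.ext
  show (b.1.1, OnePoint.map (sg R 0) b.1.2) = b.1
  have h1 : sg R 0 = fun e => e := funext fun e => sg_zero R e
  rw [h1, map_id']

lemma continuous_U (k : ℕ) (l : List ℕ) : Continuous fun R : Str => U R k l := by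
  match k with
  | 0 => exact continuous_const
  | 1 => exact continuous_const
  | (k + 2) => exact (continuous_apply _).comp (continuous_apply _)

lemma continuous_bit (q : ℕ) (c : List ℕ) : Continuous fun R : Str => bit R q c := by
  unfold bit
  have h1 : Continuous fun b : Bool => decide (c.length = (Nat.unpair q).1) && b :=
    continuous_of_discreteTopology
  exact h1.comp (continuous_U _ _)

lemma continuous_map (n : ℤ) :
    Continuous fun p : Str × OnePoint Ee => OnePoint.map (sg p.1 n) p.2 := by
  apply cont_onePoint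
  intro e
  have h1 : {p : Str × OnePoint Ee | OnePoint.map (sg p.1 n) p.2 = (e : OnePoint Ee)} =
      ({p | bit p.1 e.q e.c = true} ∩ {p | p.2 = ((rt (-n) e : Ee) : OnePoint Ee)}) ∪
      ({p | bit p.1 e.q e.c = true}ᶜ ∩ {p | p.2 = (e : OnePoint Ee)}) := by
    ext ⟨R, w⟩
    have hw : OnePoint.map (sg R n) w = (e : OnePoint Ee) ↔
        w = ((sg R (-n) e : Ee) : OnePoint Ee) := by
      constructor
      · intro h
        have h2 := congrArg (OnePoint.map (sg R (-n))) h
        rw [map_map] at h2
        have h3 : (fun e => sg R (-n) (sg R n e)) = fun e => e := by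
          funext e
          rw [sg_add, neg_add_cancel, sg_zero]
        rw [h3, map_id'] at h2
        exact h2
      · intro h
        rw [h]
        show ((sg R n (sg R (-n) e) : Ee) : OnePoint Ee) = e
        rw [sg_add, add_neg_cancel, sg_zero]
    have hw' : ((R, w) ∈ {p : Str × OnePoint Ee | OnePoint.map (sg p.1 n) p.2 = (e : OnePoint Ee)}) ↔
        w = ((sg R (-n) e : Ee) : OnePoint Ee) := hw
    rw [hw']
    by_cases h : bit R e.q e.c = true
    · rw [sg_pos h]
      constructor
      · intro h1
        exact Or.inl ⟨h, h1⟩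
      · rintro (⟨-, h1⟩ | ⟨h1, -⟩)
        · exact h1
        · exact absurd h h1
    · rw [sg_neg h]
      constructor
      · intro h1
        exact Or.inr ⟨h, h1⟩
      · rintro (⟨h1, -⟩ | ⟨-, h1⟩)
        · exact absurd h1 h
        · exact h1
  rw [h1]
  have hb : IsClopen {p : Str × OnePoint Ee | bit p.1 e.q e.c = true} :=
    (isClopen_discrete {true}).preimage ((continuous_bit e.q e.c).comp continuous_fst)
  exact (hb.inter ((isClopen_coe _).preimage continuous_snd)).union
    (hb.compl.inter ((isClopen_coe _).preimage continuous_snd))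

lemma continuous_Sb (n : ℤ) : Continuous fun p : Str × B => Sb p.1 n p.2 := by
  refine Continuous.subtype_mk ?_ _
  refine Continuous.prodMk (continuous_fst.comp (continuous_subtype_val.comp continuous_snd)) ?_
  exact (continuous_map n).comp (continuous_fst.prodMk
    (continuous_snd.comp (continuous_subtype_val.comp continuous_snd)))

/-! ### The space -/

/-- the alphabet, the hub is `inr ()` -/
abbrev A : Type := B ⊕ Unit

/-- the action on the alphabet -/
def Sa (R : Str) (n : ℤ) : A → A := Sum.map (Sb R n) id

lemma Sa_add (R : Str) (n m : ℤ) (a : A) : Sa R n (Sa R m a) = Sa R (n + m) a := by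
  rcases a with b | u
  · exact congrArg Sum.inl (Sb_add R n m b)
  · rfl

lemma Sa_zero (R : Str) (a : A) : Sa R 0 a = a := by
  rcases a with b | u
  · exact congrArg Sum.inl (Sb_zero R b)
  · rfl

lemma Sa_star {R : Str} {n : ℤ} {a : A} : Sa R n a = Sum.inr () ↔ a = Sum.inr () := by
  rcases a with b | u
  · constructor <;> intro h <;> exact absurd h (by simp [Sa])
  · constructor <;> intro h <;> rfl

lemma continuous_Sa (n : ℤ) : Continuous fun p : Str × A => Sa p.1 n p.2 := by
  rw [continuous_iff_continuousAt]
  rintro ⟨R, b | u⟩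
  · have h1 : ContinuousAt (fun p : Str × B => (Sum.inl (Sb p.1 n p.2) : A)) (R, b) :=
      (continuous_inl.comp (continuous_Sb n)).continuousAt
    have h2 : IsOpenEmbedding (fun p : Str × B => ((p.1, Sum.inl p.2) : Str × A)) :=
      IsOpenEmbedding.id.prodMap IsOpenEmbedding.inl
    exact (h2.continuousAt_iff (g := fun p : Str × A => Sa p.1 n p.2) (x := (R, b))).1 h1
  · have h1 : ContinuousAt (fun p : Str × Unit => (Sum.inr () : A)) (R, u) := continuousAt_const
    have h2 : IsOpenEmbedding (fun p : Str × Unit => ((p.1, Sum.inr p.2) : Str × A)) :=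
      IsOpenEmbedding.id.prodMap IsOpenEmbedding.inr
    exact (h2.continuousAt_iff (g := fun p : Str × A => Sa p.1 n p.2) (x := (R, u))).1 h1

/-- admissible sequences -/
def YS : Set (ℤ → A) := {y | ∀ n, y n = Sum.inr () ∨ y (n + 1) = Sum.inr () ∨ y n = y (n + 1)}

/-- the space -/
abbrev Y : Type := YS

instance : CompactSpace Y := by
  refine isCompact_iff_compactSpace.1 (IsClosed.isCompact ?_)
  have h1 : YS = ⋂ n : ℤ, ({y : ℤ → A | y n = Sum.inr ()} ∪ ({y | y (n + 1) = Sum.inr ()} ∪
      {y | y n = y (n + 1)})) := by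
    ext y
    rw [mem_iInter]
    rfl
  rw [h1]
  refine isClosed_iInter fun n => IsClosed.union ?_ (IsClosed.union ?_ ?_)
  · exact isClosed_eq (continuous_apply _) continuous_const
  · exact isClosed_eq (continuous_apply _) continuous_const
  · exact isClosed_eq (continuous_apply _) (continuous_apply _)

/-- the action of `ℤ` -/
def TT (R : Str) (n : ℤ) (y : Y) : Y := ⟨fun k => Sa R n (y.1 (k + n)), by
  intro k
  rcases y.2 (k + n) with h | h | h
  · exact Or.inl (Sa_star.2 h)
  · right; left
    apply Sa_star.2
    rw [← h]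
    show y.1 (k + 1 + n) = y.1 (k + n + 1)
    rw [add_right_comm]
  · right; right
    show Sa R n (y.1 (k + n)) = Sa R n (y.1 (k + 1 + n))
    rw [h, add_right_comm]⟩

lemma TT_add (R : Str) (n m : ℤ) (y : Y) : TT R n (TT R m y) = TT R (n + m) y := by
  apply Subtype.ext
  funext k
  show Sa R n (Sa R m (y.1 (k + n + m))) = Sa R (n + m) (y.1 (k + (n + m)))
  rw [Sa_add, add_assoc]

lemma TT_zero (R : Str) (y : Y) : TT R 0 y = y := by
  apply Subtype.ext
  funext k
  show Sa R 0 (y.1 (k + 0)) = y.1 k
  rw [Sa_zero, add_zero]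

lemma continuous_TT (n : ℤ) : Continuous fun p : Str × Y => TT p.1 n p.2 := by
  refine Continuous.subtype_mk (continuous_pi fun k => ?_) _
  exact (continuous_Sa n).comp (continuous_fst.prodMk
    ((continuous_apply _).comp (continuous_subtype_val.comp continuous_snd)))

/-- the homeomorphism of a structure -/
def TH (R : Str) : Y ≃ₜ Y where
  toFun := TT R 1
  invFun := TT R (-1)
  left_inv y := by rw [TT_add]; exact TT_zero R y
  right_inv y := by rw [TT_add]; exact TT_zero R y
  continuous_toFun := (continuous_TT 1).comp (continuous_const.prodMk continuous_id)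
  continuous_invFun := (continuous_TT (-1)).comp (continuous_const.prodMk continuous_id)

lemma TT_iter (R : Str) (n : ℕ) (y : Y) : (TT R 1)^[n] y = TT R n y := by
  induction n with
  | zero => exact (TT_zero R y).symm
  | succ n ih =>
    rw [Function.iterate_succ_apply', ih, TT_add]
    have h1 : (1 : ℤ) + (n : ℤ) = ((n + 1 : ℕ) : ℤ) := by
      push_cast
      ring
    rw [h1]

end Pool.Agent.Y567.TC
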