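import Mathlib
import Pool.Agent.Y567.TC.Sys

/-!
# The space is a Cantor set and the homeomorphisms are transitive
-/

set_option autoImplicit false

open Set Filter Topology

namespace Pool.Agent.Y567.TC

/-! ### Windows -/

lemma window {V : Set Y} (hV : IsOpen V) {u : Y} (hu : u ∈ V) : ∃ N : ℤ, 0 ≤ N ∧
    ∀ y : Y, (∀ i, -N ≤ i → i ≤ N → y.1 i = u.1 i) → y ∈ V := by
  obtain ⟨W, hW, rfl⟩ := isOpen_induced_iff.1 hV
  obtain ⟨I, f, hf, hsub⟩ := isOpen_pi_iff.1 hW u.1 hu
  refine ⟨∑ i ∈ I, |i|, Finset.sum_nonneg fun i _ => abs_nonneg i, fun y hy => ?_⟩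
  apply hsub
  intro i hi
  have h1 : |i| ≤ ∑ i ∈ I, |i| := Finset.single_le_sum (f := fun i : ℤ => |i|)
    (fun i _ => abs_nonneg i) hi
  have h2 := abs_le.1 h1
  rw [hy i h2.1 h2.2]
  exact (hf i hi).2

/-- gluing -/
def glue (z w : Y) (N n : ℤ) (hN : 0 ≤ N) (h : 2 * N + 2 ≤ n) : Y :=
  ⟨fun i => if -N ≤ i ∧ i ≤ N then z.1 i else
    if -N ≤ i - n ∧ i - n ≤ N then w.1 (i - n) else Sum.inr (), by
    intro i
    by_cases h1 : -N ≤ i ∧ i ≤ N
    · by_cases h2 : -N ≤ i + 1 ∧ i + 1 ≤ N
      · simp only [if_pos h1, if_pos h2]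
        exact z.2 i
      · right; left
        have h3 : ¬ (-N ≤ i + 1 - n ∧ i + 1 - n ≤ N) := by omega
        simp only [if_neg h2, if_neg h3]
    · by_cases h2 : -N ≤ i + 1 ∧ i + 1 ≤ N
      · left
        have h3 : ¬ (-N ≤ i - n ∧ i - n ≤ N) := by omega
        simp only [if_neg h1, if_neg h3]
      · by_cases h3 : -N ≤ i - n ∧ i - n ≤ N
        · by_cases h4 : -N ≤ i + 1 - n ∧ i + 1 - n ≤ N
          · simp only [if_neg h1, if_neg h2, if_pos h3, if_pos h4]
            have := w.2 (i - n)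
            have e : i - n + 1 = i + 1 - n := by ring
            rw [e] at this
            exact this
          · right; left
            simp only [if_neg h2, if_neg h4]
        · left
          simp only [if_neg h1, if_neg h3]⟩

lemma glue_left (z w : Y) {N n : ℤ} (hN : 0 ≤ N) (h : 2 * N + 2 ≤ n) {i : ℤ} (h1 : -N ≤ i)
    (h2 : i ≤ N) : (glue z w N n hN h).1 i = z.1 i := if_pos ⟨h1, h2⟩

lemma glue_right (z w : Y) {N n : ℤ} (hN : 0 ≤ N) (h : 2 * N + 2 ≤ n) {i : ℤ} (h1 : -N ≤ i)
    (h2 : i ≤ N) : (glue z w N n hN h).1 (i + n) = w.1 i := by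
  show (if -N ≤ i + n ∧ i + n ≤ N then z.1 (i + n) else
    if -N ≤ i + n - n ∧ i + n - n ≤ N then w.1 (i + n - n) else Sum.inr ()) = w.1 i
  rw [if_neg (by omega), add_sub_cancel_right, if_pos ⟨h1, h2⟩]

/-- the coordinatewise action -/
def act (R : Str) (m : ℤ) (v : Y) : Y := ⟨fun i => Sa R m (v.1 i), by
  intro i
  rcases v.2 i with h | h | h
  · exact Or.inl (Sa_star.2 h)
  · exact Or.inr (Or.inl (Sa_star.2 h))
  · right; right
    show Sa R m (v.1 i) = Sa R m (v.1 (i + 1))
    rw [h]⟩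

/-- topological transitivity -/
theorem transitive (R : Str) (V W : Set Y) (hV : IsOpen V) (hW : IsOpen W) (hVn : V.Nonempty)
    (hWn : W.Nonempty) : ∃ n : ℕ, ∃ y ∈ V, (TT R 1)^[n] y ∈ W := by
  obtain ⟨u, hu⟩ := hVn
  obtain ⟨v, hv⟩ := hWn
  obtain ⟨N, hN, h1⟩ := window hV hu
  obtain ⟨M, hM, h2⟩ := window hW hv
  obtain ⟨n, hn⟩ : ∃ n : ℕ, 2 * max N M + 2 ≤ (n : ℤ) := ⟨(2 * max N M + 2).toNat, by omega⟩
  have h0 : 0 ≤ max N M := le_max_of_le_left hN
  refine ⟨n, glue u (act R (-n) v) (max N M) n h0 hn, ?_, ?_⟩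
  · apply h1
    intro i hi1 hi2
    exact glue_left _ _ h0 hn (by have := le_max_left N M; omega)
      (by have := le_max_left N M; omega)
  · rw [TT_iter]
    apply h2
    intro i hi1 hi2
    show Sa R n ((glue u (act R (-n) v) (max N M) n h0 hn).1 (i + n)) = v.1 i
    rw [glue_right _ _ h0 hn (by have := le_max_right N M; omega)
      (by have := le_max_right N M; omega)]
    show Sa R n (Sa R (-n) (v.1 i)) = v.1 i
    rw [Sa_add, add_neg_cancel, Sa_zero]

/-! ### The Cantor set -/

/-- constant sequences -/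
def cst (a : A) : Y := ⟨fun _ => a, fun _ => Or.inr (Or.inr rfl)⟩

/-- the point at infinity of the cluster of `x` -/
def ip (x : F) : B := ⟨(x, OnePoint.infty), fun e h => absurd h (OnePoint.infty_ne_coe e)⟩

instance : Nonempty Y := ⟨cst (Sum.inr ())⟩

lemma perfect (z : Y) (V : Set Y) (hV : IsOpen V) (hz : z ∈ V) : ∃ y ∈ V, y ≠ z := by
  obtain ⟨N, hN, h1⟩ := window hV hz
  have h2 : 2 * N + 2 ≤ 2 * N + 2 := le_rfl
  let y1 := glue z (cst (Sum.inr ())) N (2 * N + 2) hN h2
  let y2 := glue z (cst (Sum.inl (ip fun _ => OnePoint.infty))) N (2 * N + 2) hN h2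
  have m1 : y1 ∈ V := h1 _ fun i hi1 hi2 => glue_left _ _ hN h2 hi1 hi2
  have m2 : y2 ∈ V := h1 _ fun i hi1 hi2 => glue_left _ _ hN h2 hi1 hi2
  have hne : y1 ≠ y2 := by
    intro h
    have e1 := glue_right z (cst (Sum.inr ())) hN h2 (i := 0) (by omega) hN
    have e2 := glue_right z (cst (Sum.inl (ip fun _ => OnePoint.infty))) hN h2 (i := 0) (by omega) hN
    have e3 : y1.1 (0 + (2 * N + 2)) = y2.1 (0 + (2 * N + 2)) := by rw [h]
    have e4 : (Sum.inr () : A) = Sum.inl (ip fun _ => OnePoint.infty) := by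
      have e5 : y1.1 (0 + (2 * N + 2)) = Sum.inr () := e1
      have e6 : y2.1 (0 + (2 * N + 2)) = Sum.inl (ip fun _ => OnePoint.infty) := e2
      rw [← e5, ← e6, e3]
    exact Sum.inr_ne_inl e4
  by_cases h : y1 = z
  · exact ⟨y2, m2, fun h' => hne (h.trans h'.symm)⟩
  · exact ⟨y1, m1, h⟩

instance : Countable Ee := by
  have : Function.Injective (fun e : Ee => (e.c, e.j, (⟨e.q, e.i.val⟩ : ℕ × ℕ))) := by
    rintro ⟨c, j, q, i⟩ ⟨c', j', q', i'⟩ h
    simp only [Prod.mk.injEq] at h
    obtain ⟨rfl, rfl, rfl, h4⟩ := h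
    have := ZMod.val_injective _ h4
    rw [this]
  exact this.countable

/-- the test sets -/
def tst : Unit ⊕ (ℕ × ℕ) ⊕ Ee → Set A
  | Sum.inl _ => range Sum.inr
  | Sum.inr (Sum.inl p) => Sum.inl '' {b : B | b.1.1 p.1 = (p.2 : OnePoint ℕ)}
  | Sum.inr (Sum.inr e) => Sum.inl '' {b : B | b.1.2 = (e : OnePoint Ee)}

lemma isClopen_inl {s : Set B} (h : IsClopen s) : IsClopen ((Sum.inl : B → A) '' s) :=
  ⟨IsClosedEmbedding.inl.isClosedMap _ h.1, IsOpenEmbedding.inl.isOpenMap _ h.2⟩

lemma isClopen_tst (t : Unit ⊕ (ℕ × ℕ) ⊕ Ee) : IsClopen (tst t) := by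
  rcases t with u | p | e
  · exact ⟨isClosed_range_inr, isOpen_range_inr⟩
  · apply isClopen_inl
    exact (isClopen_coe p.2).preimage
      ((continuous_apply p.1).comp (continuous_fst.comp continuous_subtype_val))
  · apply isClopen_inl
    exact (isClopen_coe e).preimage (continuous_snd.comp continuous_subtype_val)

lemma tst_sep {a a' : A} (h : ∀ t, a ∈ tst t ↔ a' ∈ tst t) : a = a' := by
  rcases a with b | u
  · rcases a' with b' | u'
    · congr 1
      apply Subtype.ext
      apply Prod.ext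
      · funext n
        have h1 : ∀ k : ℕ, b.1.1 n = (k : OnePoint ℕ) ↔ b'.1.1 n = (k : OnePoint ℕ) := by
          intro k
          have := h (Sum.inr (Sum.inl (n, k)))
          constructor
          · intro hk
            obtain ⟨b'', hb1, hb2⟩ := this.1 ⟨b, hk, rfl⟩
            rw [← Sum.inl_injective hb2]
            exact hb1
          · intro hk
            obtain ⟨b'', hb1, hb2⟩ := this.2 ⟨b', hk, rfl⟩
            rw [← Sum.inl_injective hb2]
            exact hb1
        by_cases hi : b.1.1 n = OnePoint.infty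
        · by_cases hi' : b'.1.1 n = OnePoint.infty
          · rw [hi, hi']
          · obtain ⟨k, hk⟩ := OnePoint.ne_infty_iff_exists.1 hi'
            rw [(h1 k).2 hk.symm, hk]
        · obtain ⟨k, hk⟩ := OnePoint.ne_infty_iff_exists.1 hi
          rw [(h1 k).1 hk.symm, hk]
      · have h1 : ∀ e : Ee, b.1.2 = (e : OnePoint Ee) ↔ b'.1.2 = (e : OnePoint Ee) := by
          intro k
          have := h (Sum.inr (Sum.inr k))
          constructor
          · intro hk
            obtain ⟨b'', hb1, hb2⟩ := this.1 ⟨b, hk, rfl⟩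
            rw [← Sum.inl_injective hb2]
            exact hb1
          · intro hk
            obtain ⟨b'', hb1, hb2⟩ := this.2 ⟨b', hk, rfl⟩
            rw [← Sum.inl_injective hb2]
            exact hb1
        by_cases hi : b.1.2 = OnePoint.infty
        · by_cases hi' : b'.1.2 = OnePoint.infty
          · rw [hi, hi']
          · obtain ⟨k, hk⟩ := OnePoint.ne_infty_iff_exists.1 hi'
            rw [(h1 k).2 hk.symm, hk]
        · obtain ⟨k, hk⟩ := OnePoint.ne_infty_iff_exists.1 hi
          rw [(h1 k).1 hk.symm, hk]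
    · obtain ⟨x, hx⟩ := (h (Sum.inl ())).2 ⟨u', rfl⟩
      exact absurd hx Sum.inr_ne_inl
  · rcases a' with b' | u'
    · obtain ⟨x, hx⟩ := (h (Sum.inl ())).1 ⟨u, rfl⟩
      exact absurd hx Sum.inr_ne_inl
    · rfl

open Classical in
theorem exists_cantor : Nonempty (Y ≃ₜ (ℕ → Bool)) := by
  obtain ⟨f, hf⟩ := exists_injective_nat (ℤ × (Unit ⊕ (ℕ × ℕ) ⊕ Ee))
  let e : Y → (ℕ → Bool) := fun y => Function.extend f (fun p => decide (y.1 p.1 ∈ tst p.2))
    (fun _ => false)
  refine Pool.Agent.H812R3.CantorChar.cantor_char e ?_ ?_ perfect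
  · refine continuous_pi fun n => ?_
    by_cases hn : ∃ p, f p = n
    · obtain ⟨p, rfl⟩ := hn
      have h1 : (fun y : Y => e y (f p)) = fun y => decide (y.1 p.1 ∈ tst p.2) := by
        funext y
        exact hf.extend_apply _ _ _
      rw [h1]
      have h2 : Continuous fun y : Y => y.1 p.1 :=
        (continuous_apply _).comp continuous_subtype_val
      have h3 : Continuous fun a : A => decide (a ∈ tst p.2) := by
        rw [continuous_discrete_rng]
        intro b
        cases b
        · have : (fun a : A => decide (a ∈ tst p.2)) ⁻¹' {false} = (tst p.2)ᶜ := by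
            ext a
            simp
          rw [this]
          exact (isClopen_tst _).compl.isOpen
        · have : (fun a : A => decide (a ∈ tst p.2)) ⁻¹' {true} = tst p.2 := by
            ext a
            simp
          rw [this]
          exact (isClopen_tst _).isOpen
      exact h3.comp h2
    · have h1 : (fun y : Y => e y n) = fun y => false := by
        funext y
        exact Function.extend_apply' _ _ _ hn
      rw [h1]
      exact continuous_const
  · intro y y' h
    apply Subtype.ext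
    funext i
    apply tst_sep
    intro t
    have h1 := congrFun h (f (i, t))
    have h2 : decide (y.1 i ∈ tst t) = decide (y'.1 i ∈ tst t) := by
      have e1 : e y (f (i, t)) = decide (y.1 i ∈ tst t) := hf.extend_apply _ _ _
      have e2 : e y' (f (i, t)) = decide (y'.1 i ∈ tst t) := hf.extend_apply _ _ _
      rw [← e1, ← e2, h1]
    exact decide_eq_decide.1 h2

end Pool.Agent.Y567.TC
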