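import Mathlib
import Pool.Agent.Y567.TC.Can

/-!
# Periodic points near the fixed points
-/

set_option autoImplicit false

open Set Filter Topology

namespace Pool.Agent.Y567.TC

/-- the fixed point of a point of the space of nodes -/
def J (x : F) : Y := cst (Sum.inl (ip x))

lemma continuous_cst : Continuous cst :=
  Continuous.subtype_mk (continuous_pi fun _ => continuous_id) _

lemma continuous_ip : Continuous ip :=
  Continuous.subtype_mk (continuous_id.prodMk continuous_const) _

lemma continuous_J : Continuous J :=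
  continuous_cst.comp (continuous_inl.comp continuous_ip)

/-- the node under a sequence -/
def ev (y : Y) : F := Sum.elim (fun b : B => b.1.1) (fun _ _ => OnePoint.infty) (y.1 0)

lemma continuous_ev : Continuous ev := by
  have h1 : Continuous (Sum.elim (fun b : B => b.1.1) (fun _ _ => OnePoint.infty) : A → F) :=
    (continuous_fst.comp continuous_subtype_val).sumElim continuous_const
  exact h1.comp ((continuous_apply 0).comp continuous_subtype_val)

lemma ev_J (x : F) : ev (J x) = x := rfl

lemma J_inj {x x' : F} (h : J x = J x') : x = x' := by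
  rw [← ev_J x, h, ev_J]

lemma TT_cst (R : Str) (n : ℤ) (a : A) : TT R n (cst a) = cst (Sa R n a) := rfl

lemma Sb_ip (R : Str) (n : ℤ) (x : F) : Sb R n (ip x) = ip x := rfl

lemma TT_J (R : Str) (n : ℤ) (x : F) : TT R n (J x) = J x := rfl

/-- isolated symbols -/
def sy (e : Ee) : B := ⟨(nd e.c, (e : OnePoint Ee)), fun e' h => by
  have : e = e' := OnePoint.coe_injective h
  rw [this]⟩

/-- the periodic point of an isolated symbol -/
def P (e : Ee) : Y := cst (Sum.inl (sy e))

lemma Sb_sy (R : Str) (n : ℤ) (e : Ee) : Sb R n (sy e) = sy (sg R n e) := by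
  apply Subtype.ext
  apply Prod.ext
  · show nd e.c = nd (sg R n e).c
    rw [sg_c]
  · rfl

lemma sy_inj {e e' : Ee} (h : sy e = sy e') : e = e' := by
  have : ((e : OnePoint Ee)) = e' := congrArg (fun b : B => b.1.2) h
  exact OnePoint.coe_injective this

lemma P_inj {e e' : Ee} (h : P e = P e') : e = e' := by
  have h1 : (Sum.inl (sy e) : A) = Sum.inl (sy e') := congrFun (congrArg Subtype.val h) 0
  exact sy_inj (Sum.inl_injective h1)

lemma TT_P (R : Str) (n : ℤ) (e : Ee) : TT R n (P e) = P (sg R n e) := by
  unfold P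
  rw [TT_cst]
  show cst (Sum.inl (Sb R n (sy e))) = _
  rw [Sb_sy]

/-- every symbol is a limit point or isolated -/
lemma B_cases (b : B) : (∃ x, b = ip x) ∨ ∃ e, b = sy e := by
  by_cases h : b.1.2 = OnePoint.infty
  · left
    exact ⟨b.1.1, Subtype.ext (Prod.ext rfl h)⟩
  · right
    obtain ⟨e, he⟩ := OnePoint.ne_infty_iff_exists.1 h
    exact ⟨e, Subtype.ext (Prod.ext (b.2 e he.symm) he.symm)⟩

lemma rt_eq {n : ℤ} {e : Ee} : rt n e = e ↔ ((e.q + 2 : ℕ) : ℤ) ∣ n := by
  have h1 : ((n : ℤ) : ZMod (e.q + 2)) = 0 ↔ ((e.q + 2 : ℕ) : ℤ) ∣ n :=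
    ZMod.intCast_zmod_eq_zero_iff_dvd n (e.q + 2)
  rw [← h1]
  obtain ⟨c, j, q, i⟩ := e
  unfold rt
  simp only [Ee.mk.injEq, heq_eq_eq, true_and]
  constructor
  · intro h
    have : i + (n : ZMod (q + 2)) = i + 0 := by rw [h, add_zero]
    exact add_left_cancel this
  · intro h
    rw [h, add_zero]

lemma period_P {R : Str} {e : Ee} (h : bit R e.q e.c = true) :
    Function.minimalPeriod (TT R 1) (P e) = e.q + 2 := by
  have h1 : ∀ n : ℕ, Function.IsPeriodicPt (TT R 1) n (P e) ↔ (e.q + 2) ∣ n := by
    intro n
    show (TT R 1)^[n] (P e) = P e ↔ _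
    rw [TT_iter, TT_P, sg_pos h]
    constructor
    · intro h2
      have := rt_eq.1 (P_inj h2)
      exact_mod_cast this
    · intro h2
      rw [rt_eq.2 (by exact_mod_cast h2)]
  apply Nat.dvd_antisymm
  · exact ((h1 _).2 dvd_rfl).minimalPeriod_dvd
  · exact (h1 _).1 (Function.isPeriodicPt_minimalPeriod _ _)

lemma period_fixed {R : Str} {y : Y} (h : TT R 1 y = y) :
    Function.minimalPeriod (TT R 1) y = 1 :=
  Function.minimalPeriod_eq_one_iff_isFixedPt.2 h

/-- if there is no hub, the sequence is constant -/
lemma const_of {y : Y} (h : ∀ n, y.1 n ≠ Sum.inr ()) : ∃ b, y = cst (Sum.inl b) := by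
  have h1 : ∀ n, y.1 n = y.1 (n + 1) := by
    intro n
    rcases y.2 n with h2 | h2 | h2
    · exact absurd h2 (h _)
    · exact absurd h2 (h _)
    · exact h2
  have h2 : ∀ n : ℤ, y.1 n = y.1 0 := by
    intro n
    induction n using Int.induction_on with
    | zero => rfl
    | succ i ih => rw [← h1, ih]
    | pred i ih =>
      rw [← ih]
      have := h1 (-(i : ℤ) - 1)
      rw [this, sub_add_cancel]
  rcases h3 : y.1 0 with b | u
  · refine ⟨b, Subtype.ext (funext fun n => ?_)⟩
    rw [h2 n, h3]
    rfl
  · exact absurd h3 (h 0)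

lemma TT_mul {R : Str} {y : Y} {p : ℤ} (h : TT R p y = y) (m : ℤ) : TT R (m * p) y = y := by
  induction m using Int.induction_on with
  | zero => rw [zero_mul, TT_zero]
  | succ i ih =>
    have : ((i : ℤ) + 1) * p = i * p + p := by ring
    rw [this, ← TT_add, h, ih]
  | pred i ih =>
    have : (-(i : ℤ) - 1) * p = -(i : ℤ) * p + (-p) := by ring
    have h2 : TT R (-p) y = y := by
      conv_lhs => rw [← h]
      rw [TT_add, neg_add_cancel, TT_zero]
    rw [this, ← TT_add, h2, ih]

lemma star_periodic {R : Str} {y : Y} {p : ℕ} (hp : 0 < p) (h : TT R p y = y) (k : ℤ) :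
    ∃ r : ℕ, r < p ∧ (y.1 k = Sum.inr () ↔ y.1 r = Sum.inr ()) := by
  have hp' : (0 : ℤ) < p := by exact_mod_cast hp
  have h1 := TT_mul h (-(k / p))
  have h2 : y.1 k = Sa R (-(k / p) * p) (y.1 (k + -(k / p) * p)) := by
    conv_lhs => rw [← h1]
    rfl
  have h3 : k + -(k / p) * p = k % p := by
    rw [Int.emod_def]
    ring
  rw [h3] at h2
  have h4 := Int.emod_nonneg k hp'.ne'
  have h5 := Int.emod_lt_of_pos k hp'
  obtain ⟨r, hr⟩ := Int.eq_ofNat_of_zero_le h4
  refine ⟨r, by omega, ?_⟩
  rw [← hr, h2]
  exact Sa_star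

/-- points of period `q + 2` without a hub in a window -/
lemma per_struct {R : Str} {y : Y} {q : ℕ} (h : Function.minimalPeriod (TT R 1) y = q + 2)
    (hw : ∀ r : ℕ, r < q + 2 → y.1 r ≠ Sum.inr ()) :
    ∃ e : Ee, e.q = q ∧ bit R q e.c = true ∧ y = P e := by
  have h1 : TT R ((q + 2 : ℕ) : ℤ) y = y := by
    rw [← TT_iter, ← h]
    exact Function.iterate_minimalPeriod
  obtain ⟨b, rfl⟩ := const_of (y := y) (fun k => by
    obtain ⟨r, hr, h2⟩ := star_periodic (by omega) h1 k
    rw [Ne, h2]
    exact hw r hr)
  rcases B_cases b with ⟨x, rfl⟩ | ⟨e, rfl⟩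
  · have h3 : Function.minimalPeriod (TT R 1) (J x) = q + 2 := h
    rw [period_fixed (TT_J R 1 x)] at h3
    omega
  · by_cases hb : bit R e.q e.c = true
    · have h2 := period_P hb
      have h3 : e.q + 2 = q + 2 := h2.symm.trans h
      have h4 : e.q = q := by omega
      exact ⟨e, h4, by rw [← h4]; exact hb, rfl⟩
    · have h2 : TT R 1 (P e) = P e := by rw [TT_P, sg_neg hb]
      have h3 : Function.minimalPeriod (TT R 1) (P e) = q + 2 := h
      rw [period_fixed h2] at h3
      omega

lemma per_not_star {R : Str} {y : Y} {q : ℕ} (h : Function.minimalPeriod (TT R 1) y = q + 2)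
    (hw : ∀ r : ℕ, r < q + 2 → y.1 r = Sum.inr ()) : False := by
  have h1 : TT R ((q + 2 : ℕ) : ℤ) y = y := by
    rw [← TT_iter, ← h]
    exact Function.iterate_minimalPeriod
  have h2 : y = cst (Sum.inr ()) := by
    apply Subtype.ext
    funext k
    obtain ⟨r, hr, h2⟩ := star_periodic (by omega) h1 k
    exact h2.2 (hw r hr)
  rw [h2, period_fixed (by rw [TT_cst]; rfl)] at h
  omega

/-- the fixed points which are limits of points of period `q + 2` -/
def D (R : Str) (q : ℕ) : Set Y :=
  {z | TT R 1 z = z} ∩ closure {y | Function.minimalPeriod (TT R 1) y = q + 2}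

/-- the closure of the set of nodes with the bit `q` -/
def K (R : Str) (q : ℕ) : Set F := closure (nd '' {c | bit R q c = true})

lemma isOpen_ns (i : ℤ) : IsOpen {y : Y | y.1 i ≠ Sum.inr ()} := by
  have h1 : IsOpen {a : A | a ≠ Sum.inr ()} := isOpen_ne
  have h2 : Continuous fun y : Y => y.1 i := (continuous_apply i).comp continuous_subtype_val
  exact h1.preimage h2

lemma isOpen_st (i : ℤ) : IsOpen {y : Y | y.1 i = Sum.inr ()} := by
  have h1 : IsOpen {a : A | a = Sum.inr ()} := by
    have : {a : A | a = Sum.inr ()} = range (Sum.inr : Unit → A) := by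
      ext a
      constructor
      · intro h
        exact ⟨(), Eq.symm h⟩
      · rintro ⟨u, rfl⟩
        rfl
    rw [this]
    exact isOpen_range_inr
  have h2 : Continuous fun y : Y => y.1 i := (continuous_apply i).comp continuous_subtype_val
  exact h1.preimage h2

lemma mem_closure_inter {X : Type*} [TopologicalSpace X] {z : X} {S V : Set X} (hV : IsOpen V)
    (hz : z ∈ closure S) (hzV : z ∈ V) : z ∈ closure (V ∩ S) :=
  hV.inter_closure ⟨hzV, hz⟩

theorem D_eq (R : Str) (q : ℕ) : D R q = J '' K R q := by
  apply Subset.antisymm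
  · rintro z ⟨hz, hcl⟩
    have hz' : TT R 1 z = z := hz
    by_cases h0 : ∀ r : ℕ, r < q + 2 → z.1 r ≠ Sum.inr ()
    · -- no hub
      have hV : IsOpen (⋂ r ∈ Finset.range (q + 2), {y : Y | y.1 ((r : ℕ) : ℤ) ≠ Sum.inr ()}) :=
        isOpen_biInter_finset fun r _ => isOpen_ns _
      have hzV : z ∈ ⋂ r ∈ Finset.range (q + 2), {y : Y | y.1 ((r : ℕ) : ℤ) ≠ Sum.inr ()} := by
        rw [mem_iInter₂]
        intro r hr
        exact h0 r (Finset.mem_range.1 hr)
      have h1 := mem_closure_inter hV hcl hzV
      have h2 : z ∈ closure (P '' {e | e.q = q ∧ bit R q e.c = true}) := by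
        refine closure_mono ?_ h1
        rintro y ⟨hy1, hy2⟩
        rw [mem_iInter₂] at hy1
        obtain ⟨e, he1, he2, he3⟩ := per_struct hy2 fun r hr => hy1 r (Finset.mem_range.2 hr)
        exact ⟨e, ⟨he1, he2⟩, he3.symm⟩
      have hstar : ∀ k, z.1 k ≠ Sum.inr () := by
        intro k hk
        have h3 : TT R ((1 : ℕ) : ℤ) z = z := by
          rw [Nat.cast_one]
          exact hz'
        obtain ⟨r, hr, h4⟩ := star_periodic one_pos h3 k
        have : r = 0 := by omega
        rw [this] at h4
        exact h0 0 (by omega) (h4.1 hk)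
      obtain ⟨b, rfl⟩ := const_of hstar
      rcases B_cases b with ⟨x, rfl⟩ | ⟨e, rfl⟩
      · refine ⟨x, ?_, rfl⟩
        have h3 := image_closure_subset_closure_image continuous_ev ⟨_, h2, rfl⟩
        have h4 : ev (cst (Sum.inl (ip x))) = x := ev_J x
        rw [h4] at h3
        refine closure_mono ?_ h3
        rintro _ ⟨_, ⟨e, he, rfl⟩, rfl⟩
        exact ⟨e.c, he.2, rfl⟩
      · exfalso
        have hO : IsOpen {y : Y | y.1 0 = Sum.inl (sy e)} := by
          have h5 : IsClopen {a : A | a = Sum.inl (sy e)} := by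
            have h6 : {a : A | a = Sum.inl (sy e)} = Sum.inl '' {b : B | b.1.2 = (e : OnePoint Ee)} := by
              ext a
              constructor
              · intro h
                exact ⟨sy e, rfl, Eq.symm h⟩
              · rintro ⟨b, hb, rfl⟩
                have : b = sy e := Subtype.ext (Prod.ext (b.2 e hb) hb)
                rw [this]
                rfl
            rw [h6]
            exact isClopen_inl ((isClopen_coe e).preimage
              (continuous_snd.comp continuous_subtype_val))
          have h6 : Continuous fun y : Y => y.1 0 :=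
            (continuous_apply 0).comp continuous_subtype_val
          exact h5.isOpen.preimage h6
        obtain ⟨y, hy1, e', he', hy2⟩ := mem_closure_iff.1 h2 _ hO rfl
        rw [← hy2] at hy1
        have h7 : (Sum.inl (sy e') : A) = Sum.inl (sy e) := hy1
        have h8 : e' = e := sy_inj (Sum.inl_injective h7)
        rw [h8] at he'
        have h9 : bit R e.q e.c = true := by
          rw [he'.1]
          exact he'.2
        have h10 := period_P h9
        have h11 : TT R 1 (P e) = P e := hz'
        rw [period_fixed h11] at h10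
        omega
    · -- hub
      push Not at h0
      obtain ⟨r, hr, hrs⟩ := h0
      have h3 : TT R ((1 : ℕ) : ℤ) z = z := by
        rw [Nat.cast_one]
        exact hz'
      have hstar : ∀ k, z.1 k = Sum.inr () := by
        intro k
        obtain ⟨r1, hr1, h4⟩ := star_periodic one_pos h3 k
        obtain ⟨r2, hr2, h5⟩ := star_periodic one_pos h3 r
        have e1 : r1 = 0 := by omega
        have e2 : r2 = 0 := by omega
        rw [e1] at h4
        rw [e2] at h5
        exact h4.2 (h5.1 hrs)
      have hV : IsOpen (⋂ r ∈ Finset.range (q + 2), {y : Y | y.1 ((r : ℕ) : ℤ) = Sum.inr ()}) :=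
        isOpen_biInter_finset fun r _ => isOpen_st _
      obtain ⟨y, hy1, hy2⟩ := mem_closure_iff.1 hcl _ hV (by
        rw [mem_iInter₂]
        intro r hr
        exact hstar _)
      rw [mem_iInter₂] at hy1
      exact (per_not_star hy2 fun r hr => hy1 r (Finset.mem_range.2 hr)).elim
  · rintro _ ⟨x, hx, rfl⟩
    refine ⟨TT_J R 1 x, ?_⟩
    have h1 : J x ∈ closure (J '' (nd '' {c | bit R q c = true})) :=
      image_closure_subset_closure_image continuous_J ⟨x, hx, rfl⟩
    rw [← closure_closure]
    refine closure_mono ?_ h1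
    rintro _ ⟨_, ⟨c, hc, rfl⟩, rfl⟩
    let g : OnePoint ℕ → OnePoint Ee := OnePoint.map fun j => ⟨c, j, q, 0⟩
    have hg : Continuous g := by
      apply cont_onePoint
      intro e
      by_cases he : ∃ j : ℕ, e = ⟨c, j, q, 0⟩
      · obtain ⟨j, rfl⟩ := he
        have h2 : {w : OnePoint ℕ | g w = ((⟨c, j, q, 0⟩ : Ee) : OnePoint Ee)} =
            {w | w = (j : OnePoint ℕ)} := by
          ext w
          induction w using OnePoint.rec with
          | infty =>
            constructor
            · intro h
              exact absurd h (OnePoint.infty_ne_coe _)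
            · intro h
              exact absurd h (OnePoint.infty_ne_coe _)
          | coe k =>
            constructor
            · intro h
              have h3 : ((⟨c, k, q, 0⟩ : Ee) : OnePoint Ee) = ((⟨c, j, q, 0⟩ : Ee) : OnePoint Ee) := h
              have h4 := congrArg Ee.j (OnePoint.coe_injective h3)
              have h5 : k = j := h4
              rw [h5]
              rfl
            · intro h
              have h3 : (k : OnePoint ℕ) = (j : OnePoint ℕ) := h
              have h4 : k = j := OnePoint.coe_injective h3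
              rw [h4]
              rfl
        rw [h2]
        exact isClopen_coe j
      · have h2 : {w : OnePoint ℕ | g w = (e : OnePoint Ee)} = ∅ := by
          ext w
          rw [mem_empty_iff_false, iff_false]
          intro h
          induction w using OnePoint.rec with
          | infty => exact absurd h (OnePoint.infty_ne_coe _)
          | coe k => exact he ⟨k, (OnePoint.coe_injective h).symm⟩
        rw [h2]
        exact isClopen_empty
    let G : OnePoint ℕ → Y := fun w => cst (Sum.inl ⟨(nd c, g w), fun e he => by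
      have hne : w ≠ OnePoint.infty := by
        rintro rfl
        exact absurd he (OnePoint.infty_ne_coe _)
      obtain ⟨k, rfl⟩ := OnePoint.ne_infty_iff_exists.1 hne
      have h3 : (⟨c, k, q, 0⟩ : Ee) = e := OnePoint.coe_injective he
      rw [← h3]⟩)
    have hG : Continuous G := continuous_cst.comp (continuous_inl.comp
      (Continuous.subtype_mk (continuous_const.prodMk hg) _))
    have h3 : (OnePoint.infty : OnePoint ℕ) ∈ closure (range ((↑) : ℕ → OnePoint ℕ)) := by
      rw [OnePoint.denseRange_coe.closure_range]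
      trivial
    have h4 := image_closure_subset_closure_image hG ⟨_, h3, rfl⟩
    have h5 : G OnePoint.infty = J (nd c) := rfl
    rw [h5] at h4
    refine closure_mono ?_ h4
    rintro _ ⟨_, ⟨k, rfl⟩, rfl⟩
    exact period_P (R := R) (e := ⟨c, k, q, 0⟩) hc

/-- invariance under conjugacy -/
theorem D_map {R R' : Str} (h : Y ≃ₜ Y) (hh : ∀ y, h (TT R 1 y) = TT R' 1 (h y)) (q : ℕ) {z : Y}
    (hz : z ∈ D R q) : h z ∈ D R' q := by
  have hit : ∀ (n : ℕ) (y : Y), h ((TT R 1)^[n] y) = (TT R' 1)^[n] (h y) := by
    intro n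
    induction n with
    | zero => exact fun _ => rfl
    | succ n ih =>
      intro y
      rw [Function.iterate_succ_apply', Function.iterate_succ_apply', hh, ih]
  obtain ⟨h1, h2⟩ := hz
  constructor
  · have h3 : TT R 1 z = z := h1
    show TT R' 1 (h z) = h z
    rw [← hh, h3]
  · have h3 := image_closure_subset_closure_image h.continuous ⟨z, h2, rfl⟩
    refine closure_mono ?_ h3
    rintro _ ⟨y, hy, rfl⟩
    have hy' : Function.minimalPeriod (TT R 1) y = q + 2 := hy
    show Function.minimalPeriod (TT R' 1) (h y) = q + 2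
    rw [← hy', eq_comm, Function.minimalPeriod_eq_minimalPeriod_iff]
    intro n
    show (TT R 1)^[n] y = y ↔ (TT R' 1)^[n] (h y) = h y
    rw [← hit]
    exact h.injective.eq_iff.symm

end Pool.Agent.Y567.TC
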