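import Mathlib
import Pool.Agent.Y567.TC.Dyn
import Pool.Agent.Y567.TC.BF

/-!
# The structure is recovered from the conjugacy class
-/

set_option autoImplicit false

open Set Filter Topology

namespace Pool.Agent.Y567.TC

lemma gt_lt {c : List ℕ} {i : ℕ} (h : i < c.length) : gt c i = some (c)[i] := by
  unfold gt
  rw [List.getElem?_eq_some_iff]
  exact ⟨h, rfl⟩

lemma gt_ge {c : List ℕ} {i : ℕ} (h : c.length ≤ i) : gt c i = none :=
  List.getElem?_eq_none h

lemma nd_lt {c : List ℕ} {i : ℕ} (h : i < c.length) : nd c i = (((c)[i] : ℕ) : OnePoint ℕ) := by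
  unfold nd
  rw [gt_lt h]
  rfl

lemma nd_ge {c : List ℕ} {i : ℕ} (h : c.length ≤ i) : nd c i = OnePoint.infty := by
  unfold nd
  rw [gt_ge h]
  rfl

/-- the cylinder of a node -/
def O (c : List ℕ) : Set F := ⋂ i ∈ Finset.range c.length, {x : F | x i = nd c i}

lemma isOpen_O (c : List ℕ) : IsOpen (O c) := by
  refine isOpen_biInter_finset fun i hi => ?_
  rw [Finset.mem_range] at hi
  have h1 : {x : F | x i = nd c i} = {x : F | x i = (((c)[i] : ℕ) : OnePoint ℕ)} := by
    rw [nd_lt hi]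
  rw [h1]
  exact (isClopen_coe ((c)[i])).isOpen.preimage (f := fun x : F => x i) (continuous_apply i)

lemma mem_O {c : List ℕ} {x : F} : x ∈ O c ↔ ∀ i < c.length, x i = nd c i := by
  unfold O
  rw [mem_iInter₂]
  constructor
  · intro h i hi
    exact h i (Finset.mem_range.2 hi)
  · intro h i hi
    exact h i (Finset.mem_range.1 hi)

lemma nd_mem_O (c : List ℕ) : nd c ∈ O c := mem_O.2 fun _ _ => rfl

/-- a node in the cylinder of a node extends it -/
lemma ext_of_mem {c d : List ℕ} (h : nd d ∈ O c) : c <+: d := by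
  rw [mem_O] at h
  rw [List.prefix_iff_getElem?]
  intro i hi
  have h1 := h i hi
  rw [nd_lt hi] at h1
  by_cases h2 : i < d.length
  · rw [nd_lt h2] at h1
    rw [List.getElem?_eq_some_iff]
    exact ⟨h2, OnePoint.coe_injective h1⟩
  · rw [nd_ge (not_lt.1 h2)] at h1
    exact absurd h1 (OnePoint.infty_ne_coe _)

lemma eq_of_mem {c d : List ℕ} (h : nd d ∈ O c) (hl : d.length = c.length) : d = c :=
  ((ext_of_mem h).eq_of_length hl.symm).symm

lemma nd_inj {c d : List ℕ} (h : nd c = nd d) : c = d := by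
  have h1 : nd c ∈ O d := by rw [h]; exact nd_mem_O d
  have h2 : nd d ∈ O c := by rw [← h]; exact nd_mem_O c
  exact (ext_of_mem h2).eq_of_length (le_antisymm (ext_of_mem h2).length_le (ext_of_mem h1).length_le)

lemma bit_len (R : Str) (m : ℕ) (c : List ℕ) :
    bit R (Nat.pair m 0) c = true ↔ c.length = m := by
  unfold bit
  rw [Nat.unpair_pair]
  simp [U]

lemma len_of_bit {R : Str} {q : ℕ} {c : List ℕ} (h : bit R q c = true) :
    c.length = (Nat.unpair q).1 := by
  unfold bit at h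
  rw [Bool.and_eq_true] at h
  exact decide_eq_true_iff.1 h.1

/-- nodes of a given length are isolated in the closure of their set -/
lemma isolated {R : Str} {m : ℕ} {c : List ℕ} (hc : c.length = m) {x : F}
    (hx : x ∈ K R (Nat.pair m 0)) (hO : x ∈ O c) : x = nd c := by
  have h1 := mem_closure_inter (isOpen_O c) hx hO
  have h2 : O c ∩ nd '' {c | bit R (Nat.pair m 0) c = true} ⊆ {nd c} := by
    rintro _ ⟨h3, d, hd, rfl⟩
    have h4 : d.length = m := (bit_len R m d).1 hd
    rw [eq_of_mem h3 (h4.trans hc.symm)]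
    rfl
  have h3 := closure_mono h2 h1
  rwa [closure_singleton] at h3

lemma nd_mem_K {R : Str} {q : ℕ} {c : List ℕ} (h : bit R q c = true) : nd c ∈ K R q :=
  subset_closure ⟨c, h, rfl⟩

lemma bit_of_mem {R : Str} {q : ℕ} {c : List ℕ} (hc : c.length = (Nat.unpair q).1)
    (h : nd c ∈ K R q) : bit R q c = true := by
  have h1 := mem_closure_inter (isOpen_O c) h (nd_mem_O c)
  obtain ⟨x, -, h3, d, hd, rfl⟩ := mem_closure_iff.1 h1 univ isOpen_univ trivial
  have h4 : d = c := eq_of_mem h3 ((len_of_bit hd).trans hc.symm)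
  rw [← h4]
  exact hd

variable {R R' : Str} {h : Y ≃ₜ Y}

lemma symm_conj (hh : ∀ y, h (TT R 1 y) = TT R' 1 (h y)) (y : Y) :
    h.symm (TT R' 1 y) = TT R 1 (h.symm y) := by
  rw [h.symm_apply_eq, hh, h.apply_symm_apply]

/-- nodes go to nodes -/
lemma node_map (hh : ∀ y, h (TT R 1 y) = TT R' 1 (h y)) (c : List ℕ) :
    ∃ c' : List ℕ, c'.length = c.length ∧ h (J (nd c)) = J (nd c') := by
  have h1 : J (nd c) ∈ D R (Nat.pair c.length 0) := by
    rw [D_eq]
    exact ⟨nd c, nd_mem_K ((bit_len R _ c).2 rfl), rfl⟩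
  have h2 := D_map h hh _ h1
  rw [D_eq] at h2
  obtain ⟨x', hx', hx2⟩ := h2
  have hO : IsOpen {x : F | ev (h.symm (J x)) ∈ O c} :=
    (isOpen_O c).preimage (continuous_ev.comp (h.symm.continuous.comp continuous_J))
  have hxO : x' ∈ {x : F | ev (h.symm (J x)) ∈ O c} := by
    show ev (h.symm (J x')) ∈ O c
    rw [hx2, h.symm_apply_apply, ev_J]
    exact nd_mem_O c
  obtain ⟨_, hy1, d, hd, rfl⟩ := mem_closure_iff.1 hx' _ hO hxO
  have h3 : J (nd d) ∈ D R' (Nat.pair c.length 0) := by
    rw [D_eq]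
    exact ⟨nd d, nd_mem_K hd, rfl⟩
  have h4 := D_map h.symm (symm_conj hh) _ h3
  rw [D_eq] at h4
  obtain ⟨x'', hx'', hx3⟩ := h4
  have h5 : x'' = nd c := by
    apply isolated rfl hx''
    have h6 : ev (h.symm (J (nd d))) ∈ O c := hy1
    rw [← hx3, ev_J] at h6
    exact h6
  refine ⟨d, (bit_len R' _ d).1 hd, ?_⟩
  rw [h5] at hx3
  rw [hx3, h.apply_symm_apply]

lemma bit_map (hh : ∀ y, h (TT R 1 y) = TT R' 1 (h y)) {c c' : List ℕ}
    (hl : c'.length = c.length) (hc : h (J (nd c)) = J (nd c')) {q : ℕ}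
    (hb : bit R q c = true) : bit R' q c' = true := by
  have h1 : J (nd c) ∈ D R q := by
    rw [D_eq]
    exact ⟨nd c, nd_mem_K hb, rfl⟩
  have h2 := D_map h hh _ h1
  rw [D_eq, hc] at h2
  obtain ⟨x, hx, hx2⟩ := h2
  rw [J_inj hx2] at hx
  exact bit_of_mem (hl.trans (len_of_bit hb)) hx

lemma bit_iff (hh : ∀ y, h (TT R 1 y) = TT R' 1 (h y)) {c c' : List ℕ}
    (hl : c'.length = c.length) (hc : h (J (nd c)) = J (nd c')) (q : ℕ) :
    bit R q c = bit R' q c' := by
  rw [Bool.eq_iff_iff]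
  refine ⟨bit_map hh hl hc, bit_map (symm_conj hh) hl.symm ?_⟩
  rw [← hc, h.symm_apply_apply]

/-- children go to children -/
lemma child (hh : ∀ y, h (TT R 1 y) = TT R' 1 (h y)) {c c' : List ℕ}
    (hl : c'.length = c.length) (hc : h (J (nd c)) = J (nd c')) (i : ℕ) :
    ∃ t d : ℕ, h (J (nd (c ++ [Nat.pair i t]))) = J (nd (c' ++ [d])) := by
  let g : OnePoint ℕ → F := fun w n => if n = c.length then w else nd c n
  have hg : Continuous g := by
    refine continuous_pi fun n => ?_
    by_cases hn : n = c.length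
    · simp only [g, if_pos hn]
      exact continuous_id
    · simp only [g, if_neg hn]
      exact continuous_const
  have g1 : g OnePoint.infty = nd c := by
    funext n
    by_cases hn : n = c.length
    · simp only [g, if_pos hn]
      rw [nd_ge (by omega)]
    · simp only [g, if_neg hn]
  have g2 : ∀ k : ℕ, g (k : OnePoint ℕ) = nd (c ++ [k]) := by
    intro k
    funext n
    by_cases hn : n = c.length
    · simp only [g, if_pos hn]
      subst hn
      rw [nd_lt (by simp)]
      congr 1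
      simp
    · simp only [g, if_neg hn]
      by_cases h1 : n < c.length
      · rw [nd_lt h1, nd_lt (by simp; omega)]
        congr 1
        rw [List.getElem_append_left h1]
      · rw [nd_ge (by omega), nd_ge (by simp; omega)]
  have hO : IsOpen {w : OnePoint ℕ | ev (h (J (g w))) ∈ O c'} :=
    (isOpen_O c').preimage (continuous_ev.comp (h.continuous.comp (continuous_J.comp hg)))
  have hmem : (OnePoint.infty : OnePoint ℕ) ∈ {w : OnePoint ℕ | ev (h (J (g w))) ∈ O c'} := by
    show ev (h (J (g OnePoint.infty))) ∈ O c'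
    rw [g1, hc, ev_J]
    exact nd_mem_O c'
  have h1 := ((OnePoint.isOpen_iff_of_mem' hmem).1 hO).1
  have h2 := isCompact_iff_finite.1 h1
  have h3 : (range fun t : ℕ => Nat.pair i t).Infinite := by
    apply infinite_range_of_injective
    intro t t' ht
    exact (Nat.pair_eq_pair.1 ht).2
  obtain ⟨k, ⟨t, rfl⟩, hk⟩ := h3.exists_notMem_finite h2
  rw [mem_compl_iff, not_not] at hk
  have hk' : ev (h (J (g ((Nat.pair i t : ℕ) : OnePoint ℕ)))) ∈ O c' := hk
  rw [g2] at hk'
  obtain ⟨d, hd1, hd2⟩ := node_map hh (c ++ [Nat.pair i t])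
  rw [hd2, ev_J] at hk'
  have h4 := ext_of_mem hk'
  obtain ⟨r, hr⟩ := h4
  have h5 : r.length = 1 := by
    have := congrArg List.length hr
    rw [List.length_append, hd1, List.length_append, hl] at this
    simp at this
    omega
  obtain ⟨x, hx⟩ := List.length_eq_one_iff.1 h5
  refine ⟨t, x, ?_⟩
  rw [hd2, ← hr, hx]

lemma pr_append (c : List ℕ) (k : ℕ) : pr (c ++ [k]) = pr c ++ [(Nat.unpair k).1] := by
  unfold pr
  simp

lemma U_of_bit {c c' : List ℕ} (hl : c'.length = c.length)
    (hb : ∀ q, bit R q c = bit R' q c') (k : ℕ) : U R k (pr c) = U R' k (pr c') := by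
  have h1 := hb (Nat.pair c.length k)
  unfold bit at h1
  rw [Nat.unpair_pair] at h1
  simpa [hl] using h1

/-- Conjugate homeomorphisms come from isomorphic structures. -/
theorem iso_of_conj (hh : ∀ y, h (TT R 1 y) = TT R' 1 (h y)) : SIso R R' := by
  let Z : List ℕ → List ℕ → Prop := fun a b => ∃ c c' : List ℕ, c'.length = c.length ∧
    h (J (nd c)) = J (nd c') ∧ pr c = a ∧ pr c' = b
  have key : ∀ a b, Z a b → ∀ k, U R k a = U R' k b := by
    rintro a b ⟨c, c', h1, h2, rfl, rfl⟩ k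
    exact U_of_bit h1 (bit_iff hh h1 h2) k
  obtain ⟨π, hπ⟩ : ∃ π : Equiv.Perm ℕ, ∀ N : ℕ, ∃ a, Z a (a.map π) ∧ ∀ i < N, i ∈ a := by
    refine back_forth (Z := Z) ?_ ?_ ?_ ?_ ?_
    · obtain ⟨c', h1, h2⟩ := node_map hh []
      refine ⟨[], c', h1, h2, rfl, ?_⟩
      have : c' = [] := List.eq_nil_of_length_eq_zero h1
      rw [this]
      rfl
    · rintro a b ⟨c, c', h1, h2, rfl, rfl⟩
      unfold pr
      rw [List.length_map, List.length_map, h1]
    · intro a b hab
      have h1 := key a b hab 1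
      have h2 : decide a.Nodup = decide b.Nodup := h1
      exact decide_eq_decide.1 h2
    · rintro a b ⟨c, c', h1, h2, rfl, rfl⟩ i
      obtain ⟨t, d, hd⟩ := child hh h1 h2 i
      refine ⟨(Nat.unpair d).1, c ++ [Nat.pair i t], c' ++ [d], by simp [h1], hd, ?_, ?_⟩
      · rw [pr_append, Nat.unpair_pair]
      · rw [pr_append]
    · rintro a b ⟨c, c', h1, h2, rfl, rfl⟩ j
      obtain ⟨t, d, hd⟩ := child (h := h.symm) (symm_conj hh) h1.symm
        (by rw [← h2, h.symm_apply_apply]) j
      refine ⟨(Nat.unpair d).1, c ++ [d], c' ++ [Nat.pair j t], by simp [h1], ?_, ?_, ?_⟩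
      · rw [← hd, h.apply_symm_apply]
      · rw [pr_append]
      · rw [pr_append, Nat.unpair_pair]
  refine ⟨π, fun n l => ?_⟩
  obtain ⟨N, hN⟩ : ∃ N, ∀ x ∈ l, x < N := by
    refine ⟨l.sum + 1, fun x hx => ?_⟩
    have := List.le_sum_of_mem hx
    omega
  obtain ⟨a, ha, haN⟩ := hπ N
  obtain ⟨s, hs⟩ : ∃ s : List ℕ, s.filterMap (gt a) = l ∧
      s.filterMap (gt (a.map π)) = l.map π := by
    have hl : ∀ x ∈ l, x ∈ a := fun x hx => haN x (hN x hx)
    clear haN hN ha
    induction l with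
    | nil => exact ⟨[], rfl, rfl⟩
    | cons x l ih =>
      obtain ⟨s, hs1, hs2⟩ := ih fun y hy => hl y (List.mem_cons_of_mem _ hy)
      obtain ⟨i, hi, hi2⟩ := List.getElem_of_mem (hl x List.mem_cons_self)
      refine ⟨i :: s, ?_, ?_⟩
      · rw [List.filterMap_cons_some (b := x) (by rw [gt_lt hi, hi2]), hs1]
      · rw [List.filterMap_cons_some (b := π x) (by
          rw [gt_lt (by rw [List.length_map]; exact hi), List.getElem_map, hi2]), hs2,
          List.map_cons]
  have h1 := key _ _ ha (Encodable.encode (n, s) + 2)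
  have h2 : ∀ (S : Str) (l' : List ℕ), U S (Encodable.encode (n, s) + 2) l' =
      S n (s.filterMap (gt l')) := by
    intro S l'
    show S (Denumerable.ofNat (ℕ × List ℕ) (Encodable.encode (n, s))).1
      (List.filterMap (gt l') (Denumerable.ofNat (ℕ × List ℕ) (Encodable.encode (n, s))).2) = _
    rw [Denumerable.ofNat_encode]
  rw [h2, h2, hs.1, hs.2] at h1
  exact h1.symm

end Pool.Agent.Y567.TC
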