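import Mathlib
import Pool.Agent.Y567.TC.Rec

/-!
# Isomorphic structures give conjugate homeomorphisms
-/

set_option autoImplicit false

open Set Filter Topology

namespace Pool.Agent.Y567.TC

/-- the permutation of the labels of the nodes -/
def nu (π : Equiv.Perm ℕ) : Equiv.Perm ℕ where
  toFun x := Nat.pair (π (Nat.unpair x).1) (Nat.unpair x).2
  invFun x := Nat.pair (π.symm (Nat.unpair x).1) (Nat.unpair x).2
  left_inv x := by simp
  right_inv x := by simp

lemma pr_nu (π : Equiv.Perm ℕ) (c : List ℕ) : pr (c.map (nu π)) = (pr c).map π := by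
  unfold pr
  rw [List.map_map, List.map_map]
  apply List.map_congr_left
  intro x _
  simp [nu]

lemma gt_map (f : ℕ → ℕ) (l : List ℕ) (i : ℕ) : gt (l.map f) i = (gt l i).map f := by
  unfold gt
  rw [List.getElem?_map]

lemma filterMap_gt (f : ℕ → ℕ) (l s : List ℕ) :
    s.filterMap (gt (l.map f)) = (s.filterMap (gt l)).map f := by
  rw [List.map_filterMap]
  congr 1
  funext i
  exact gt_map f l i

lemma U_iso {R R' : Str} {π : Equiv.Perm ℕ} (h : ∀ n l, R' n (l.map π) = R n l) (k : ℕ)
    (l : List ℕ) : U R' k (l.map π) = U R k l := by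
  match k with
  | 0 => rfl
  | 1 =>
    show decide (l.map π).Nodup = decide l.Nodup
    rw [decide_eq_decide]
    exact List.nodup_map_iff π.injective
  | (k + 2) =>
    show R' _ (List.filterMap (gt (l.map π)) _) = R _ (List.filterMap (gt l) _)
    rw [filterMap_gt, h]

lemma bit_iso {R R' : Str} {π : Equiv.Perm ℕ} (h : ∀ n l, R' n (l.map π) = R n l) (q : ℕ)
    (c : List ℕ) : bit R' q (c.map (nu π)) = bit R q c := by
  unfold bit
  rw [List.length_map, pr_nu, U_iso h]

lemma continuous_mapPerm {D : Type*} [TopologicalSpace D] [DiscreteTopology D] (f : D → D)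
    (g : D → D) (hfg : ∀ x, f (g x) = x) (hgf : ∀ x, g (f x) = x) :
    Continuous (OnePoint.map f : OnePoint D → OnePoint D) := by
  apply cont_onePoint
  intro e
  have h1 : {w : OnePoint D | OnePoint.map f w = (e : OnePoint D)} =
      {w | w = ((g e : D) : OnePoint D)} := by
    ext w
    induction w using OnePoint.rec with
    | infty =>
      constructor
      · intro h
        exact absurd h (OnePoint.infty_ne_coe _)
      · intro h
        exact absurd h (OnePoint.infty_ne_coe _)
    | coe x =>
      constructor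
      · intro h
        have h2 : f x = e := OnePoint.coe_injective h
        show (x : OnePoint D) = ((g e : D) : OnePoint D)
        rw [← h2, hgf]
      · intro h
        have h2 : x = g e := OnePoint.coe_injective h
        show ((f x : D) : OnePoint D) = (e : OnePoint D)
        rw [h2, hfg]
  rw [h1]
  exact isClopen_coe _

/-- the map of the nodes, as points -/
def hF (ν : Equiv.Perm ℕ) (x : F) : F := fun n => OnePoint.map ν (x n)

lemma hF_nd (ν : Equiv.Perm ℕ) (c : List ℕ) : hF ν (nd c) = nd (c.map ν) := by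
  funext n
  show OnePoint.map ν (nd c n) = nd (c.map ν) n
  unfold nd
  rw [gt_map]
  cases gt c n <;> rfl

/-- the map of the isolated symbols -/
def hE (ν : Equiv.Perm ℕ) (e : Ee) : Ee := ⟨e.c.map ν, e.j, e.q, e.i⟩

lemma hE_inv {ν μ : Equiv.Perm ℕ} (h : ∀ x, μ (ν x) = x) (e : Ee) : hE μ (hE ν e) = e := by
  unfold hE
  simp only [List.map_map]
  have : (μ ∘ ν : ℕ → ℕ) = id := funext h
  rw [this, List.map_id]

/-- the map of the symbols -/
def hB (ν : Equiv.Perm ℕ) (b : B) : B := ⟨(hF ν b.1.1, OnePoint.map (hE ν) b.1.2), by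
  intro e he
  rcases B_cases b with ⟨x, rfl⟩ | ⟨e', rfl⟩
  · exact absurd he (OnePoint.infty_ne_coe _)
  · have h1 : hE ν e' = e := OnePoint.coe_injective he
    show hF ν (nd e'.c) = nd e.c
    rw [hF_nd, ← h1]
    rfl⟩

lemma map_id_of {D : Type*} {f : D → D} (h : ∀ x, f x = x) (w : OnePoint D) :
    OnePoint.map f w = w := by
  induction w using OnePoint.rec with
  | infty => rfl
  | coe e => exact congrArg _ (h e)

lemma map_map' {D : Type*} (f g : D → D) (w : OnePoint D) :
    OnePoint.map f (OnePoint.map g w) = OnePoint.map (fun e => f (g e)) w := by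
  induction w using OnePoint.rec with
  | infty => rfl
  | coe e => rfl

lemma hB_inv {ν μ : Equiv.Perm ℕ} (h : ∀ x, μ (ν x) = x) (b : B) : hB μ (hB ν b) = b := by
  apply Subtype.ext
  apply Prod.ext
  · funext n
    show OnePoint.map μ (OnePoint.map ν (b.1.1 n)) = b.1.1 n
    rw [map_map', map_id_of h]
  · show OnePoint.map (hE μ) (OnePoint.map (hE ν) b.1.2) = b.1.2
    rw [map_map', map_id_of (hE_inv h)]

lemma continuous_hB (ν : Equiv.Perm ℕ) : Continuous (hB ν) := by
  refine Continuous.subtype_mk (Continuous.prodMk ?_ ?_) _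
  · refine continuous_pi fun n => ?_
    have h1 := continuous_mapPerm (D := ℕ) ν ν.symm (fun x => ν.apply_symm_apply x)
      (fun x => ν.symm_apply_apply x)
    exact h1.comp ((continuous_apply n).comp (continuous_fst.comp continuous_subtype_val))
  · have h1 := continuous_mapPerm (D := Ee) (hE ν) (hE ν.symm)
      (hE_inv (fun x => ν.apply_symm_apply x)) (hE_inv (fun x => ν.symm_apply_apply x))
    exact h1.comp (continuous_snd.comp continuous_subtype_val)

/-- the map of the alphabet -/
def hA (ν : Equiv.Perm ℕ) : A → A := Sum.map (hB ν) id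

lemma hA_inv {ν μ : Equiv.Perm ℕ} (h : ∀ x, μ (ν x) = x) (a : A) : hA μ (hA ν a) = a := by
  rcases a with b | u
  · exact congrArg Sum.inl (hB_inv h b)
  · rfl

lemma continuous_hA (ν : Equiv.Perm ℕ) : Continuous (hA ν) :=
  (continuous_hB ν).sumMap continuous_id

/-- the map of the space -/
def hY (ν : Equiv.Perm ℕ) (y : Y) : Y := ⟨fun k => hA ν (y.1 k), by
  intro k
  rcases y.2 k with h | h | h
  · left
    show hA ν (y.1 k) = Sum.inr ()
    rw [h]
    rfl
  · right; left
    show hA ν (y.1 (k + 1)) = Sum.inr ()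
    rw [h]
    rfl
  · right; right
    show hA ν (y.1 k) = hA ν (y.1 (k + 1))
    rw [h]⟩

lemma hY_inv {ν μ : Equiv.Perm ℕ} (h : ∀ x, μ (ν x) = x) (y : Y) : hY μ (hY ν y) = y := by
  apply Subtype.ext
  funext k
  exact hA_inv h (y.1 k)

lemma continuous_hY (ν : Equiv.Perm ℕ) : Continuous (hY ν) :=
  Continuous.subtype_mk (continuous_pi fun k =>
    (continuous_hA ν).comp ((continuous_apply k).comp continuous_subtype_val)) _

/-- the homeomorphism -/
def HY (ν : Equiv.Perm ℕ) : Y ≃ₜ Y where
  toFun := hY ν
  invFun := hY ν.symm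
  left_inv := hY_inv fun x => ν.symm_apply_apply x
  right_inv := hY_inv fun x => ν.apply_symm_apply x
  continuous_toFun := continuous_hY ν
  continuous_invFun := continuous_hY ν.symm

theorem conj_of_iso {R R' : Str} (h : SIso R R') :
    ∃ h : Y ≃ₜ Y, ∀ y, h (TT R 1 y) = TT R' 1 (h y) := by
  obtain ⟨π, hπ⟩ := h
  refine ⟨HY (nu π), fun y => ?_⟩
  apply Subtype.ext
  funext k
  show hA (nu π) (Sa R 1 (y.1 (k + 1))) = Sa R' 1 (hA (nu π) (y.1 (k + 1)))
  rcases y.1 (k + 1) with b | u
  · show (Sum.inl (hB (nu π) (Sb R 1 b)) : A) = Sum.inl (Sb R' 1 (hB (nu π) b))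
    congr 1
    apply Subtype.ext
    apply Prod.ext
    · rfl
    · show OnePoint.map (hE (nu π)) (OnePoint.map (sg R 1) b.1.2) =
        OnePoint.map (sg R' 1) (OnePoint.map (hE (nu π)) b.1.2)
      rw [map_map', map_map']
      congr 1
      funext e
      by_cases hb : bit R e.q e.c = true
      · have hb' : bit R' (hE (nu π) e).q (hE (nu π) e).c = true := by
          show bit R' e.q (e.c.map (nu π)) = true
          rw [bit_iso hπ]
          exact hb
        rw [sg_pos hb, sg_pos hb']
        rfl
      · have hb' : ¬ bit R' (hE (nu π) e).q (hE (nu π) e).c = true := by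
          show ¬ bit R' e.q (e.c.map (nu π)) = true
          rw [bit_iso hπ]
          exact hb
        rw [sg_neg hb, sg_neg hb']
  · rfl

end Pool.Agent.Y567.TC
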