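import Mathlib
import Pool.Agent.Y567.TC.Fun
import Pool.Agent.Y567.DF.Fin

/-!
# Borel actions of `S_∞` reduce to conjugacy of transitive homeomorphisms of the Cantor set
-/

set_option autoImplicit false

open Set Filter Topology

namespace Pool.Agent.Y567.TC

open Pool.Agent.H468R2.KA (Fperm_St Fperm_equiv Fperm_iso F_top F_vt t_F_top t_F_vt permMS permTop Ub)

universe u

/-- the Cantor set -/
abbrev C : Type := ℕ → Bool

section code

variable {Z : Type u} [MulAction (Equiv.Perm ℕ) Z]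

open Classical in
/-- the structure of a point -/
noncomputable def code (A : ℕ → Set Z) (z : Z) : Str :=
  fun n l => decide (Fperm_St A z (n, l.length) (fun s => l.get s))

lemma St_congr (A : ℕ → Set Z) (z : Z) (n : ℕ) {m m' : ℕ} (h : m = m') (a : Fin m → ℕ)
    (a' : Fin m' → ℕ) (ha : ∀ i : Fin m, a i = a' (Fin.cast h i)) :
    Fperm_St A z (n, m) a ↔ Fperm_St A z (n, m') a' := by
  subst h
  have : a = a' := funext ha
  rw [this]

lemma code_iso (A : ℕ → Set Z) {z z' : Z} (h : ∃ π : Equiv.Perm ℕ, π • z = z') :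
    SIso (code A z) (code A z') := by
  classical
  obtain ⟨π, rfl⟩ := h
  refine ⟨π, fun n l => ?_⟩
  unfold code
  rw [decide_eq_decide, ← Fperm_equiv t_F_top A z π (n, l.length) (fun s => l.get s)]
  refine St_congr A (π • z) n (by rw [List.length_map]) _ _ fun i => ?_
  simp

lemma iso_code [MeasurableSpace Z]
    (hm : @Measurable _ _ (permMS.prod inferInstance) _ (fun p : Equiv.Perm ℕ × Z => p.1 • p.2))
    (A : ℕ → Set Z) (hA : ∀ n, MeasurableSet (A n))
    (hsep : ∀ x y : Z, (∀ n, x ∈ A n ↔ y ∈ A n) → x = y) {z z' : Z}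
    (h : SIso (code A z) (code A z')) : ∃ π : Equiv.Perm ℕ, π • z = z' := by
  classical
  obtain ⟨π, hπ⟩ := h
  apply Fperm_iso t_F_top (t_F_vt t_F_top) hm A hA hsep z z'
  refine ⟨π, ?_⟩
  rintro ⟨n, m⟩ a
  have h1 := hπ n (List.ofFn a)
  unfold code at h1
  rw [decide_eq_decide] at h1
  have h2 : Fperm_St A z (n, (List.ofFn a).length) (fun s => (List.ofFn a).get s) ↔
      Fperm_St A z (n, m) a := by
    refine St_congr A z n (by rw [List.length_ofFn]) _ _ fun i => ?_
    simp
    rfl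
  have h3 : Fperm_St A z' (n, ((List.ofFn a).map π).length) (fun s => ((List.ofFn a).map π).get s) ↔
      Fperm_St A z' (n, m) (fun s => π (a s)) := by
    refine St_congr A z' n (by rw [List.length_map, List.length_ofFn]) _ _ fun i => ?_
    simp
    rfl
  rw [← h2, ← h3]
  exact h1

lemma measurable_code [MeasurableSpace Z]
    (hm : @Measurable _ _ (permMS.prod inferInstance) _ (fun p : Equiv.Perm ℕ × Z => p.1 • p.2))
    (A : ℕ → Set Z) (hA : ∀ n, MeasurableSet (A n)) : Measurable (code A) := by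
  classical
  refine measurable_pi_lambda _ fun n => measurable_pi_lambda _ fun l => ?_
  have hB : @MeasurableSet _ (permMS.prod inferInstance)
      {p : Equiv.Perm ℕ × Z | p.1 • p.2 ∈ A n} := hm (hA n)
  have h1 := (t_F_vt t_F_top Z _ hB l.length (fun s => l.get s)).1
  have h2 : (fun z : Z => code A z n l) ⁻¹' {true} =
      {x | ¬ @IsMeagre _ permTop ({π | (π, x) ∈ {p : Equiv.Perm ℕ × Z | p.1 • p.2 ∈ A n}} ∩
        Ub l.length (fun s => l.get s))} := by
    ext z
    unfold code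
    simp only [mem_preimage, mem_singleton_iff, decide_eq_true_eq]
    rfl
  apply measurable_to_bool
  rw [h2]
  exact h1

end code

/-- the topology of uniform convergence on the group of the homeomorphisms of the Cantor set -/
@[reducible] def homTop : TopologicalSpace (C ≃ₜ C) :=
  TopologicalSpace.induced (fun h : C ≃ₜ C => (⟨h, h.continuous⟩ : C(C, C)))
    ContinuousMap.compactOpen

/-- topological transitivity -/
def Transitive (T : C ≃ₜ C) : Prop := ∀ U V : Set C, IsOpen U → IsOpen V → U.Nonempty →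
  V.Nonempty → ∃ n : ℤ, ((⇑(T ^ n) '' U) ∩ V).Nonempty

/-- the homeomorphism of the Cantor set of a structure -/
def PH (κ : Y ≃ₜ C) (R : Str) : C ≃ₜ C := (κ.symm.trans (TH R)).trans κ

lemma PH_apply (κ : Y ≃ₜ C) (R : Str) (x : C) : PH κ R x = κ (TT R 1 (κ.symm x)) := rfl

lemma continuous_PH (κ : Y ≃ₜ C) : @Continuous Str (C ≃ₜ C) _ homTop (PH κ) := by
  rw [continuous_induced_rng]
  apply ContinuousMap.continuous_of_continuous_uncurry
  exact κ.continuous.comp ((continuous_TT 1).comp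
    (continuous_fst.prodMk (κ.symm.continuous.comp continuous_snd)))

lemma PH_iter (κ : Y ≃ₜ C) (R : Str) (n : ℕ) (x : C) :
    (PH κ R ^ n) x = κ ((TT R 1)^[n] (κ.symm x)) := by
  induction n with
  | zero =>
    rw [pow_zero]
    show x = κ (κ.symm x)
    rw [κ.apply_symm_apply]
  | succ n ih =>
    rw [pow_succ']
    show PH κ R ((PH κ R ^ n) x) = _
    rw [ih, PH_apply, κ.symm_apply_apply, Function.iterate_succ_apply']

lemma PH_transitive (κ : Y ≃ₜ C) (R : Str) : Transitive (PH κ R) := by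
  intro U V hU hV hUn hVn
  obtain ⟨u, hu⟩ := hUn
  obtain ⟨v, hv⟩ := hVn
  obtain ⟨n, y, hy1, hy2⟩ := transitive R (κ ⁻¹' U) (κ ⁻¹' V) (hU.preimage κ.continuous)
    (hV.preimage κ.continuous) ⟨κ.symm u, by
      rw [mem_preimage, κ.apply_symm_apply]
      exact hu⟩ ⟨κ.symm v, by
      rw [mem_preimage, κ.apply_symm_apply]
      exact hv⟩
  refine ⟨n, κ ((TT R 1)^[n] y), ⟨κ y, hy1, ?_⟩, hy2⟩
  rw [zpow_natCast, PH_iter, κ.symm_apply_apply]

lemma PH_conj (κ : Y ≃ₜ C) (R R' : Str) :
    (∃ h : C ≃ₜ C, ∀ x, h (PH κ R x) = PH κ R' (h x)) ↔ SIso R R' := by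
  constructor
  · rintro ⟨h, hh⟩
    refine iso_of_conj (h := (κ.trans h).trans κ.symm) fun y => ?_
    show κ.symm (h (κ (TT R 1 y))) = TT R' 1 (κ.symm (h (κ y)))
    have h1 := hh (κ y)
    rw [PH_apply, PH_apply, κ.symm_apply_apply] at h1
    rw [h1, κ.symm_apply_apply]
  · intro h
    obtain ⟨g, hg⟩ := conj_of_iso h
    refine ⟨(κ.symm.trans g).trans κ, fun x => ?_⟩
    show κ (g (κ.symm (PH κ R x))) = PH κ R' (κ (g (κ.symm x)))
    rw [PH_apply, PH_apply, κ.symm_apply_apply, κ.symm_apply_apply, hg]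

/-- Every Borel action of `S_∞` is Borel reducible to conjugacy of transitive homeomorphisms of the
Cantor set. -/
theorem action_reducible {Z : Type u} [MeasurableSpace Z] [StandardBorelSpace Z]
    [MulAction (Equiv.Perm ℕ) Z]
    (hact : @Measurable (Equiv.Perm ℕ × Z) Z
      (@Prod.instMeasurableSpace _ _ Pool.Agent.Y567.DF.SinfBorel _) _ (fun p => p.1 • p.2)) :
    ∃ θ : Z → (C ≃ₜ C), @Measurable _ _ _ (@borel _ homTop) θ ∧ (∀ z, Transitive (θ z)) ∧
      ∀ z z', (∃ σ : Equiv.Perm ℕ, σ • z = z') ↔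
        ∃ h : C ≃ₜ C, ∀ x, h (θ z x) = θ z' (h x) := by
  have hm : @Measurable (Equiv.Perm ℕ × Z) Z (@Prod.instMeasurableSpace _ _ permMS _) _
      (fun p => p.1 • p.2) := by
    refine @Measurable.mono _ _ (@Prod.instMeasurableSpace _ _ Pool.Agent.Y567.DF.SinfBorel _)
      (@Prod.instMeasurableSpace _ _ permMS _) _ _ _ hact ?_ le_rfl
    exact sup_le_sup (MeasurableSpace.comap_mono Pool.Agent.Y567.DF.sinfBorel_le) le_rfl
  obtain ⟨A, hA, hsep⟩ := exists_seq_separating Z (p := MeasurableSet) (s₀ := ∅)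
    MeasurableSet.empty Set.univ
  have hsep' : ∀ x y : Z, (∀ n, x ∈ A n ↔ y ∈ A n) → x = y :=
    fun x y h => hsep x trivial y trivial h
  obtain ⟨κ⟩ := exists_cantor
  refine ⟨fun z => PH κ (code A z), ?_, fun z => PH_transitive κ _, fun z z' => ?_⟩
  · have h1 : @Measurable Str (C ≃ₜ C) _ (@borel _ homTop) (PH κ) := by
      have h2 := @Continuous.borel_measurable Str (C ≃ₜ C) _ homTop _ (continuous_PH κ)
      rwa [← BorelSpace.measurable_eq (α := Str)] at h2
    exact @Measurable.comp _ _ _ _ _ (@borel _ homTop) _ _ h1 (measurable_code hm A hA)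
  · rw [PH_conj]
    exact ⟨code_iso A, iso_code hm A hA hsep'⟩

end Pool.Agent.Y567.TC
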