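import Mathlib
import Pool.Agent.Y567.TC.Cod

/-!
# Conjugacy of homeomorphisms of the Cantor set reduces to an action of `S_∞`
-/

set_option autoImplicit false

open Set Filter Topology TopologicalSpace

namespace Pool.Agent.Y567.TC

/-! ### Stone duality -/

/-- clopen sets separate points -/
lemma clopen_sep {x y : C} (h : ∀ U : Clopens C, x ∈ U → y ∈ U) : x = y := by
  funext n
  have h1 : IsClopen {z : C | z n = x n} :=
    (isClopen_discrete {x n}).preimage (continuous_apply n)
  have h2 := h ⟨_, h1⟩ (show x ∈ {z : C | z n = x n} from rfl)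
  exact Eq.symm h2

lemma stone_point (φ : Clopens C ≃o Clopens C) (x : C) :
    ∃ y : C, ∀ U : Clopens C, x ∈ U ↔ y ∈ φ U := by
  have h1 : (⋂ U : {U : Clopens C // x ∈ U}, ((φ U : Clopens C) : Set C)).Nonempty := by
    have : Nonempty {U : Clopens C // x ∈ U} := ⟨⟨⊤, trivial⟩⟩
    refine IsCompact.nonempty_iInter_of_directed_nonempty_isCompact_isClosed _ ?_ ?_ ?_ ?_
    · rintro ⟨U, hU⟩ ⟨V, hV⟩
      refine ⟨⟨U ⊓ V, hU, hV⟩, ?_, ?_⟩
      · exact φ.monotone inf_le_left
      · exact φ.monotone inf_le_right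
    · rintro ⟨U, hU⟩
      rw [Set.nonempty_iff_ne_empty]
      intro h
      have h2 : φ U = ⊥ := Clopens.ext h
      have h3 : U = ⊥ := by
        rw [← φ.map_bot] at h2
        exact φ.injective h2
      rw [h3] at hU
      exact hU
    · rintro ⟨U, hU⟩
      exact (φ U).isClosed.isCompact
    · rintro ⟨U, hU⟩
      exact (φ U).isClosed
  obtain ⟨y, hy⟩ := h1
  rw [mem_iInter] at hy
  refine ⟨y, fun U => ⟨fun hU => hy ⟨U, hU⟩, fun hyU => ?_⟩⟩
  by_contra hn
  have h2 := hy ⟨Uᶜ, hn⟩
  have h3 : φ Uᶜ = (φ U)ᶜ := by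
    refine (IsCompl.compl_eq (IsCompl.of_eq ?_ ?_)).symm
    · rw [← φ.map_inf, inf_compl_self, φ.map_bot]
    · rw [← φ.map_sup, sup_compl_eq_top, φ.map_top]
  have h4 : y ∈ (φ Uᶜ : Clopens C) := h2
  rw [h3] at h4
  exact h4 hyU

/-- automorphisms of the algebra of clopen sets come from homeomorphisms -/
lemma stone (φ : Clopens C ≃o Clopens C) : ∃ h : C ≃ₜ C, ∀ (x : C) (U : Clopens C),
    x ∈ U ↔ h x ∈ φ U := by
  choose f hf using stone_point φ
  choose g hg using stone_point φ.symm
  have h1 : ∀ x, g (f x) = x := by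
    intro x
    apply Eq.symm
    apply clopen_sep
    intro U hU
    rw [hf, hg, φ.symm_apply_apply] at hU
    exact hU
  have h2 : ∀ x, f (g x) = x := by
    intro x
    apply Eq.symm
    apply clopen_sep
    intro U hU
    rw [hg, hf, φ.apply_symm_apply] at hU
    exact hU
  have hb : ∀ (n : ℕ) (b : Bool), IsClopen {z : C | z n = b} := fun n b =>
    (isClopen_discrete {b}).preimage (continuous_apply n)
  have hfc : Continuous f := by
    refine continuous_pi fun n => ?_
    rw [continuous_discrete_rng]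
    intro b
    have h3 : (fun x => f x n) ⁻¹' {b} = ((φ.symm ⟨_, hb n b⟩ : Clopens C) : Set C) := by
      ext x
      have := hf x (φ.symm ⟨_, hb n b⟩)
      rw [φ.apply_symm_apply] at this
      exact this.symm
    rw [h3]
    exact (φ.symm ⟨_, hb n b⟩ : Clopens C).isOpen
  have hgc : Continuous g := by
    refine continuous_pi fun n => ?_
    rw [continuous_discrete_rng]
    intro b
    have h3 : (fun x => g x n) ⁻¹' {b} = ((φ ⟨_, hb n b⟩ : Clopens C) : Set C) := by
      ext x
      have := hg x (φ ⟨_, hb n b⟩)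
      rw [φ.symm_apply_apply] at this
      exact this.symm
    rw [h3]
    exact (φ ⟨_, hb n b⟩ : Clopens C).isOpen
  exact ⟨⟨⟨f, g, h1, h2⟩, hfc, hgc⟩, hf⟩

/-! ### The action -/

/-- pairs of binary relations on `ℕ` -/
def GS : Type := (ℕ → ℕ → Bool) × (ℕ → ℕ → Bool)

instance : MeasurableSpace GS := inferInstanceAs (MeasurableSpace ((ℕ → ℕ → Bool) × (ℕ → ℕ → Bool)))

instance : StandardBorelSpace GS :=
  inferInstanceAs (StandardBorelSpace ((ℕ → ℕ → Bool) × (ℕ → ℕ → Bool)))

instance : MulAction (Equiv.Perm ℕ) GS where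
  smul σ p := (fun i j => p.1 (σ.symm i) (σ.symm j), fun i j => p.2 (σ.symm i) (σ.symm j))
  one_smul p := rfl
  mul_smul σ τ p := rfl

lemma smul_fst (σ : Equiv.Perm ℕ) (p : GS) (i j : ℕ) :
    (σ • p).1 i j = p.1 (σ.symm i) (σ.symm j) := rfl

lemma smul_snd (σ : Equiv.Perm ℕ) (p : GS) (i j : ℕ) :
    (σ • p).2 i j = p.2 (σ.symm i) (σ.symm j) := rfl

lemma measurable_symm (i : ℕ) : @Measurable (Equiv.Perm ℕ) ℕ Pool.Agent.Y567.DF.SinfBorel _
    fun σ => σ.symm i := by
  refine @measurable_to_countable' ℕ (Equiv.Perm ℕ) _ _ Pool.Agent.Y567.DF.SinfBorel _ fun j => ?_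
  have h1 : (fun σ : Equiv.Perm ℕ => σ.symm i) ⁻¹' {j} =
      (fun (σ : Equiv.Perm ℕ) (n : ℕ) => σ n) ⁻¹' {f : ℕ → ℕ | f j = i} := by
    ext σ
    show σ.symm i = j ↔ σ j = i
    rw [Equiv.symm_apply_eq, eq_comm]
  rw [h1]
  have h2 : IsOpen {f : ℕ → ℕ | f j = i} :=
    (isOpen_discrete ({i} : Set ℕ)).preimage (f := fun f : ℕ → ℕ => f j) (continuous_apply j)
  exact MeasurableSpace.measurableSet_generateFrom ⟨_, h2, rfl⟩

lemma measurable_action : @Measurable (Equiv.Perm ℕ × GS) GS
    (@Prod.instMeasurableSpace _ _ Pool.Agent.Y567.DF.SinfBorel _) _ (fun p => p.1 • p.2) := by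
  letI : MeasurableSpace (Equiv.Perm ℕ) := Pool.Agent.Y567.DF.SinfBorel
  have key : ∀ (i j : ℕ) (r : GS → ℕ → ℕ → Bool), Measurable r →
      Measurable fun p : Equiv.Perm ℕ × GS => r p.2 (p.1.symm i) (p.1.symm j) := by
    intro i j r hr
    have h1 : Measurable fun q : (ℕ × ℕ) × (ℕ → ℕ → Bool) => q.2 q.1.1 q.1.2 :=
      measurable_from_prod_countable_right fun a =>
        (measurable_pi_apply a.2).comp (measurable_pi_apply a.1)
    have h2 : Measurable fun p : Equiv.Perm ℕ × GS => (((p.1.symm i, p.1.symm j) : ℕ × ℕ), r p.2) :=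
      (((measurable_symm i).comp measurable_fst).prodMk
        ((measurable_symm j).comp measurable_fst)).prodMk (hr.comp measurable_snd)
    exact h1.comp h2
  have h1 : Measurable fun p : Equiv.Perm ℕ × GS =>
      ((fun i j => p.2.1 (p.1.symm i) (p.1.symm j), fun i j => p.2.2 (p.1.symm i) (p.1.symm j)) :
        (ℕ → ℕ → Bool) × (ℕ → ℕ → Bool)) := by
    refine Measurable.prodMk ?_ ?_
    · exact measurable_pi_lambda _ fun i => measurable_pi_lambda _ fun j =>
        key i j (fun p => p.1) measurable_fst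
    · exact measurable_pi_lambda _ fun i => measurable_pi_lambda _ fun j =>
        key i j (fun p => p.2) measurable_snd
  exact h1

lemma exists_enum : Nonempty (ℕ ≃ Clopens C) := by
  have : Countable (Clopens C) := by
    rw [Clopens.countable_iff_secondCountable]
    infer_instance
  have : Infinite (Clopens C) := by
    refine Infinite.of_injective (fun n : ℕ => (⟨{z : C | z n = true},
      (isClopen_discrete {true}).preimage (continuous_apply n)⟩ : Clopens C)) ?_
    intro n m h
    by_contra hne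
    have h1 : {z : C | z n = true} = {z : C | z m = true} := congrArg Clopens.carrier h
    have h2 : (fun k => decide (k = n) : C) ∈ {z : C | z n = true} := by
      show decide (n = n) = true
      simp
    rw [h1] at h2
    have h3 : decide (m = n) = true := h2
    exact hne (of_decide_eq_true h3).symm
  exact nonempty_equiv_of_countable

open Classical in
/-- the structure of a homeomorphism -/
noncomputable def rho (e : ℕ ≃ Clopens C) (T : C ≃ₜ C) : GS :=
  (fun i j => decide (e i ≤ e j), fun i j => decide (∀ x, x ∈ e i ↔ T x ∈ e j))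

lemma measurable_rho (e : ℕ ≃ Clopens C) : @Measurable (C ≃ₜ C) GS (@borel _ homTop) _ (rho e) := by
  classical
  let _ : TopologicalSpace (C ≃ₜ C) := homTop
  let _ : MeasurableSpace (C ≃ₜ C) := borel _
  have _ : BorelSpace (C ≃ₜ C) := ⟨rfl⟩
  have h1 : Measurable fun T : C ≃ₜ C => (fun i j => decide (∀ x, x ∈ e i ↔ T x ∈ e j)) := by
    refine measurable_pi_lambda _ fun i => measurable_pi_lambda _ fun j => ?_
    apply measurable_to_bool
    have h2 : (fun T : C ≃ₜ C => decide (∀ x, x ∈ e i ↔ T x ∈ e j)) ⁻¹' {true} =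
        (fun h : C ≃ₜ C => (⟨h, h.continuous⟩ : C(C, C))) ⁻¹'
          ({f : C(C, C) | MapsTo f (e i : Set C) (e j : Set C)} ∩
            {f : C(C, C) | MapsTo f ((e i : Set C)ᶜ) ((e j : Set C)ᶜ)}) := by
      ext T
      simp only [mem_preimage, mem_singleton_iff, decide_eq_true_eq]
      constructor
      · intro h
        refine ⟨fun x hx => (h x).1 hx, fun x hx hx2 => hx ((h x).2 hx2)⟩
      · rintro ⟨h1, h2⟩ x
        refine ⟨fun hx => h1 hx, fun hx => ?_⟩
        by_contra hn
        exact h2 hn hx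
    rw [h2]
    have h3 : IsOpen ({f : C(C, C) | MapsTo f (e i : Set C) (e j : Set C)} ∩
            {f : C(C, C) | MapsTo f ((e i : Set C)ᶜ) ((e j : Set C)ᶜ)}) :=
      (ContinuousMap.isOpen_setOf_mapsTo (e i).isClosed.isCompact (e j).isOpen).inter
        (ContinuousMap.isOpen_setOf_mapsTo (e i).isOpen.isClosed_compl.isCompact
          (e j).isClosed.isOpen_compl)
    exact (h3.preimage continuous_induced_dom).measurableSet
  exact (measurable_const (a := fun i j => decide (e i ≤ e j))).prodMk h1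

/-- the action of a homeomorphism on clopen sets -/
def cl (h : C ≃ₜ C) : Clopens C ≃ Clopens C where
  toFun U := ⟨h.symm ⁻¹' U, U.isClopen.preimage h.symm.continuous⟩
  invFun U := ⟨h ⁻¹' U, U.isClopen.preimage h.continuous⟩
  left_inv U := by
    apply Clopens.ext
    ext x
    show h.symm (h x) ∈ U ↔ x ∈ U
    rw [h.symm_apply_apply]
  right_inv U := by
    apply Clopens.ext
    ext x
    show h (h.symm x) ∈ U ↔ x ∈ U
    rw [h.apply_symm_apply]

lemma mem_cl (h : C ≃ₜ C) (x : C) (U : Clopens C) : h x ∈ cl h U ↔ x ∈ U := by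
  show h.symm (h x) ∈ U ↔ x ∈ U
  rw [h.symm_apply_apply]

theorem rho_red (e : ℕ ≃ Clopens C) (T T' : C ≃ₜ C) :
    (∃ h : C ≃ₜ C, ∀ x, h (T x) = T' (h x)) ↔ ∃ σ : Equiv.Perm ℕ, σ • rho e T = rho e T' := by
  classical
  constructor
  · rintro ⟨h, hh⟩
    let σ : Equiv.Perm ℕ := (e.trans (cl h)).trans e.symm
    have hσ : ∀ i, cl h (e (σ.symm i)) = e i := by
      intro i
      have : e (σ (σ.symm i)) = cl h (e (σ.symm i)) := by
        show e (e.symm (cl h (e (σ.symm i)))) = _
        rw [e.apply_symm_apply]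
      rw [← this, σ.apply_symm_apply]
    have hm : ∀ (i : ℕ) (x : C), x ∈ e (σ.symm i) ↔ h x ∈ e i := by
      intro i x
      rw [← hσ i, mem_cl]
    refine ⟨σ, Prod.ext ?_ ?_⟩
    · funext i j
      show decide (e (σ.symm i) ≤ e (σ.symm j)) = decide (e i ≤ e j)
      rw [decide_eq_decide]
      constructor
      · intro hle x hx
        have h1 : h (h.symm x) ∈ e i := by rw [h.apply_symm_apply]; exact hx
        have h2 := (hm j _).1 (hle ((hm i _).2 h1))
        rwa [h.apply_symm_apply] at h2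
      · intro hle x hx
        exact (hm j x).2 (hle ((hm i x).1 hx))
    · funext i j
      show decide (∀ x, x ∈ e (σ.symm i) ↔ T x ∈ e (σ.symm j)) =
        decide (∀ x, x ∈ e i ↔ T' x ∈ e j)
      rw [decide_eq_decide]
      constructor
      · intro h1 x
        have h2 := h1 (h.symm x)
        rw [hm, hm, hh, h.apply_symm_apply] at h2
        exact h2
      · intro h1 x
        rw [hm, hm, hh]
        exact h1 (h x)
  · rintro ⟨σ, hσ⟩
    have h1 : ∀ i j, e (σ.symm i) ≤ e (σ.symm j) ↔ e i ≤ e j := by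
      intro i j
      have := congrFun (congrFun (congrArg Prod.fst hσ) i) j
      exact decide_eq_decide.1 this
    have h2 : ∀ i j, (∀ x, x ∈ e (σ.symm i) ↔ T x ∈ e (σ.symm j)) ↔
        (∀ x, x ∈ e i ↔ T' x ∈ e j) := by
      intro i j
      have := congrFun (congrFun (congrArg Prod.snd hσ) i) j
      exact decide_eq_decide.1 this
    let φ : Clopens C ≃o Clopens C :=
      { toEquiv := (e.symm.trans σ).trans e
        map_rel_iff' := by
          intro U V
          show e (σ (e.symm U)) ≤ e (σ (e.symm V)) ↔ U ≤ V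
          have := h1 (σ (e.symm U)) (σ (e.symm V))
          rw [σ.symm_apply_apply, σ.symm_apply_apply, e.apply_symm_apply, e.apply_symm_apply] at this
          exact this.symm }
    have hφ : ∀ i, φ (e (σ.symm i)) = e i := by
      intro i
      show e (σ (e.symm (e (σ.symm i)))) = e i
      rw [e.symm_apply_apply, σ.apply_symm_apply]
    obtain ⟨h, hh⟩ := stone φ
    have hm : ∀ (i : ℕ) (x : C), x ∈ e (σ.symm i) ↔ h x ∈ e i := by
      intro i x
      rw [hh, hφ]
    refine ⟨h, fun x => Eq.symm ?_⟩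
    apply clopen_sep
    intro V hV
    -- the clopen set `V`, its preimage under `T'`
    obtain ⟨j, rfl⟩ := e.surjective V
    let W : Clopens C := ⟨T' ⁻¹' (e j), (e j).isClopen.preimage T'.continuous⟩
    obtain ⟨i, hi⟩ := e.surjective W
    have h3 : ∀ x, x ∈ e i ↔ T' x ∈ e j := by
      intro x
      rw [hi]
      rfl
    have h4 := (h2 i j).2 h3 x
    rw [hm, hm] at h4
    exact h4.1 ((h3 _).2 hV)

end Pool.Agent.Y567.TC
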